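import Pool.Agent.N916.ND.Sqf

/-!
# Squarefree numbers in residue classes
-/

set_option autoImplicit false

namespace Pool.Agent.N855.GF

open Finset Filter Topology
open scoped ArithmeticFunction.Moebius
open Pool.Agent.N916.ND (ind_sqf)

/-- the squarefree numbers up to `X` in the class of `a` modulo `q` -/
def SQ (q a X : ℕ) : Finset ℕ := (Icc 1 X).filter fun n => Squarefree n ∧ n % q = a

lemma card_ap {q : ℕ} (hq : 0 < q) (b n : ℕ) :
    |(((Icc 1 n).filter fun k => k ≡ b [MOD q]).card : ℝ) - (n : ℝ) / q| ≤ 1 := by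
  have h1 := Nat.Ioc_filter_modEq_card 0 n hq b
  have h2 : Ioc 0 n = Icc 1 n := by ext; simp [Nat.lt_iff_add_one_le]
  rw [h2] at h1
  set x : ℚ := ((n : ℚ) - b) / q with hx
  set y : ℚ := (((0 : ℕ) : ℚ) - b) / q with hy
  have hqq : (0 : ℚ) < q := by exact_mod_cast hq
  have hxy : x - y = (n : ℚ) / q := by rw [hx, hy]; field_simp; push_cast; ring
  have hn : (0 : ℚ) ≤ (n : ℚ) / q := by positivity
  have a1 := Int.floor_le x
  have a2 := Int.lt_floor_add_one x
  have a3 := Int.floor_le y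
  have a4 := Int.lt_floor_add_one y
  have h3 : ⌊y⌋ ≤ ⌊x⌋ := Int.floor_le_floor (by linarith)
  rw [max_eq_left (by omega)] at h1
  have h4 : |(((Icc 1 n).filter fun k => k ≡ b [MOD q]).card : ℚ) - (n : ℚ) / q| ≤ 1 := by
    have h5 : (((Icc 1 n).filter fun k => k ≡ b [MOD q]).card : ℚ) = (⌊x⌋ : ℚ) - ⌊y⌋ := by
      exact_mod_cast h1
    rw [h5, ← hxy, abs_le]
    constructor <;> linarith
  have h6 : ((|(((Icc 1 n).filter fun k => k ≡ b [MOD q]).card : ℚ) - (n : ℚ) / q| : ℚ) : ℝ) ≤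
      ((1 : ℚ) : ℝ) := by exact_mod_cast h4
  push_cast at h6
  exact h6

lemma card_sq {q a s : ℕ} (hq : 0 < q) (hs : 0 < s) (hc : Nat.Coprime s q) (n : ℕ) :
    |(((Icc 1 n).filter fun k => k ≡ a [MOD q] ∧ s ^ 2 ∣ k).card : ℝ) -
      (n : ℝ) / (s ^ 2 * q)| ≤ 2 := by
  have hs0 : 0 < s ^ 2 := pow_pos hs 2
  have hc2 : Nat.Coprime (s ^ 2) q := Nat.Coprime.pow_left 2 hc
  obtain ⟨b, hb⟩ : ∃ b, s ^ 2 * b ≡ a [MOD q] := by
    obtain ⟨c, _, hc'⟩ := Nat.exists_mul_mod_eq_of_coprime a hc2 hq.ne'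
    exact ⟨c, hc'⟩
  have e : ((Icc 1 n).filter fun k => k ≡ a [MOD q] ∧ s ^ 2 ∣ k).card =
      ((Icc 1 (n / s ^ 2)).filter fun k => k ≡ b [MOD q]).card := by
    symm
    refine card_bij (fun k _ => s ^ 2 * k) ?_ ?_ ?_
    · intro k hk
      rw [mem_filter, mem_Icc] at hk ⊢
      refine ⟨⟨Nat.mul_pos hs0 hk.1.1, ?_⟩, ?_, dvd_mul_right _ _⟩
      · rw [mul_comm]
        exact (Nat.le_div_iff_mul_le hs0).1 hk.1.2
      · exact (hk.2.mul_left (s ^ 2)).trans hb
    · intro k _ l _ h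
      exact Nat.eq_of_mul_eq_mul_left hs0 h
    · intro k hk
      rw [mem_filter, mem_Icc] at hk
      obtain ⟨⟨h1, h2⟩, h3, l, rfl⟩ := hk
      refine ⟨l, ?_, rfl⟩
      rw [mem_filter, mem_Icc]
      refine ⟨⟨Nat.pos_of_mul_pos_left h1, ?_⟩, ?_⟩
      · rw [Nat.le_div_iff_mul_le hs0, mul_comm]
        exact h2
      · exact Nat.ModEq.cancel_left_of_coprime (by rw [Nat.gcd_comm]; exact hc2) (h3.trans hb.symm)
  rw [e]
  have h1 := card_ap hq b (n / s ^ 2)
  have hsr : (0 : ℝ) < (s : ℝ) ^ 2 := by exact_mod_cast hs0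
  have hqr : (1 : ℝ) ≤ q := by exact_mod_cast hq
  have h2 : |((n / s ^ 2 : ℕ) : ℝ) / q - (n : ℝ) / (s ^ 2 * q)| ≤ 1 := by
    have b1 : n / s ^ 2 * s ^ 2 ≤ n := Nat.div_mul_le_self _ _
    have b1' : ((n / s ^ 2 : ℕ) : ℝ) * (s : ℝ) ^ 2 ≤ n := by exact_mod_cast b1
    have b2 : n < (n / s ^ 2 + 1) * s ^ 2 := by
      have := Nat.lt_div_mul_add hs0 (a := n)
      rw [add_mul, one_mul]
      omega
    have b2' : (n : ℝ) < (((n / s ^ 2 : ℕ) : ℝ) + 1) * (s : ℝ) ^ 2 := by exact_mod_cast b2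
    have c1 : ((n / s ^ 2 : ℕ) : ℝ) ≤ n / (s : ℝ) ^ 2 := by
      rw [le_div_iff₀ hsr]; exact b1'
    have c2 : n / (s : ℝ) ^ 2 ≤ ((n / s ^ 2 : ℕ) : ℝ) + 1 := by
      rw [div_le_iff₀ hsr]; exact b2'.le
    have e2 : ((n / s ^ 2 : ℕ) : ℝ) / q - (n : ℝ) / (s ^ 2 * q) =
        (((n / s ^ 2 : ℕ) : ℝ) - n / (s : ℝ) ^ 2) / q := by field_simp
    rw [e2, abs_div, abs_of_pos (by linarith : (0 : ℝ) < q), div_le_one (by linarith)]
    rw [abs_le]
    constructor <;> linarith
  have h3 := abs_sub_le (((Icc 1 (n / s ^ 2)).filter fun k => k ≡ b [MOD q]).card : ℝ)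
    (((n / s ^ 2 : ℕ) : ℝ) / q) ((n : ℝ) / (s ^ 2 * q))
  linarith

/-- the summand -/
noncomputable def ff (q s : ℕ) : ℝ := if Nat.Coprime s q then (μ s : ℝ) / (s : ℝ) ^ 2 else 0

lemma ff_abs (q s : ℕ) : |ff q s| ≤ 1 / (s : ℝ) ^ 2 := by
  unfold ff
  split_ifs
  · rw [abs_div, abs_of_nonneg (sq_nonneg (s : ℝ))]
    apply div_le_div_of_nonneg_right _ (sq_nonneg _)
    exact_mod_cast ArithmeticFunction.abs_moebius_le_one
  · rw [abs_zero]; positivity

lemma ff_summable (q : ℕ) : Summable (ff q) := by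
  refine Summable.of_norm_bounded (g := fun s : ℕ => 1 / (s : ℝ) ^ 2)
    (Real.summable_one_div_nat_pow.2 (by norm_num)) fun s => ff_abs q s

/-- the density of a coprime class -/
noncomputable def dl (q : ℕ) : ℝ := (∑' s, ff q s) / q

lemma dl_pos {q : ℕ} (hq : 0 < q) : 0 < dl q := by
  have hqr : (0 : ℝ) < q := by exact_mod_cast hq
  apply div_pos _ hqr
  have h1 := (ff_summable q).sum_add_tsum_nat_add 2
  have h2 : ∑ i ∈ range 2, ff q i = 1 := by
    rw [sum_range_succ, sum_range_one]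
    have e0 : ff q 0 = 0 := by unfold ff; simp
    have e1 : ff q 1 = 1 := by unfold ff; simp
    rw [e0, e1]; ring
  have h3 : HasSum (fun s : ℕ => 1 / (s : ℝ) ^ 2) (Real.pi ^ 2 / 6) := hasSum_zeta_two
  have h4 := h3.summable.sum_add_tsum_nat_add 2
  rw [h3.tsum_eq] at h4
  have h5 : ∑ i ∈ range 2, 1 / (i : ℝ) ^ 2 = 1 := by
    rw [sum_range_succ, sum_range_one]; norm_num
  rw [h5] at h4
  have h6 : ‖∑' s : ℕ, ff q (s + 2)‖ ≤ ∑' s : ℕ, 1 / ((s + 2 : ℕ) : ℝ) ^ 2 :=
    tsum_of_norm_bounded ((summable_nat_add_iff 2).2 h3.summable).hasSum fun s => ff_abs q (s + 2)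
  rw [Real.norm_eq_abs] at h6
  have h7 := (abs_le.1 h6).1
  have h8 := Real.pi_lt_d2
  have h9 := Real.pi_pos
  have h10 : Real.pi ^ 2 < 3.15 ^ 2 := by gcongr
  rw [h2] at h1
  linarith

lemma sqrt_tendsto : Tendsto Nat.sqrt atTop atTop := by
  rw [tendsto_atTop]
  intro b
  filter_upwards [eventually_ge_atTop (b * b)] with n hn
  exact Nat.le_sqrt.2 hn

/-- a coprime class -/
theorem lim_cop {q a : ℕ} (hq : 0 < q) (ha : a < q) (hc : Nat.Coprime a q) :
    Tendsto (fun X : ℕ => ((SQ q a X).card : ℝ) / X) atTop (𝓝 (dl q)) := by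
  have hmain : ∀ X : ℕ, |((SQ q a X).card : ℝ) -
      X / q * ∑ s ∈ range (Nat.sqrt X + 1), ff q s| ≤ 2 * Nat.sqrt X := by
    intro X
    set r := Nat.sqrt X with hr
    have h1 : ((SQ q a X).card : ℤ) = ∑ s ∈ Icc 1 r, μ s *
        (((Icc 1 X).filter fun k => k ≡ a [MOD q] ∧ s ^ 2 ∣ k).card : ℤ) := by
      have e1 : ((SQ q a X).card : ℤ) = ∑ n ∈ (Icc 1 X).filter (fun n => n ≡ a [MOD q]),
          (if Squarefree n then (1 : ℤ) else 0) := by
        unfold SQ
        rw [sum_boole, filter_filter]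
        congr 2
        apply filter_congr
        intro n _
        have : n ≡ a [MOD q] ↔ n % q = a := by
          unfold Nat.ModEq; rw [Nat.mod_eq_of_lt ha]
        rw [this]
        tauto
      rw [e1]
      have e2 : ∀ n ∈ (Icc 1 X).filter (fun n => n ≡ a [MOD q]),
          (if Squarefree n then (1 : ℤ) else 0) =
          ∑ s ∈ Icc 1 r, if s ^ 2 ∣ n then μ s else 0 := by
        intro n hn
        rw [mem_filter, mem_Icc] at hn
        rw [← sum_filter]
        refine (ind_sqf (by omega) ?_).symm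
        have := Nat.lt_succ_sqrt X
        rw [← hr] at this
        rw [pow_two]
        exact lt_of_le_of_lt hn.1.2 this
      rw [sum_congr rfl e2, sum_comm]
      apply sum_congr rfl
      intro s _
      rw [← sum_filter, sum_const, filter_filter, nsmul_eq_mul, mul_comm]
    have h2 : ((SQ q a X).card : ℝ) = ∑ s ∈ Icc 1 r, (μ s : ℝ) *
        (((Icc 1 X).filter fun k => k ≡ a [MOD q] ∧ s ^ 2 ∣ k).card : ℝ) := by
      have : (((SQ q a X).card : ℤ) : ℝ) = ((∑ s ∈ Icc 1 r, μ s *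
        (((Icc 1 X).filter fun k => k ≡ a [MOD q] ∧ s ^ 2 ∣ k).card : ℤ) : ℤ) : ℝ) := by rw [h1]
      push_cast at this
      exact this
    have h3 : (X : ℝ) / q * ∑ s ∈ range (r + 1), ff q s = ∑ s ∈ Icc 1 r, X / q * ff q s := by
      rw [mul_sum, range_eq_Ico, sum_eq_sum_Ico_succ_bot (by omega)]
      have e0 : ff q 0 = 0 := by unfold ff; simp
      rw [e0, mul_zero, zero_add]
      rfl
    rw [h2, h3, ← sum_sub_distrib]
    refine (abs_sum_le_sum_abs _ _).trans ?_
    have h4 : ∀ s ∈ Icc 1 r, |(μ s : ℝ) * (((Icc 1 X).filter fun k => k ≡ a [MOD q] ∧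
        s ^ 2 ∣ k).card : ℝ) - X / q * ff q s| ≤ 2 := by
      intro s hs
      rw [mem_Icc] at hs
      have hqr : (0 : ℝ) < q := by exact_mod_cast hq
      have hsr : (0 : ℝ) < s := by exact_mod_cast (by omega : 0 < s)
      unfold ff
      split_ifs with hcs
      · have h5 := card_sq (a := a) hq (by omega) hcs X
        have h6 : |(μ s : ℝ)| ≤ 1 := by exact_mod_cast ArithmeticFunction.abs_moebius_le_one
        have e : (μ s : ℝ) * (((Icc 1 X).filter fun k => k ≡ a [MOD q] ∧
            s ^ 2 ∣ k).card : ℝ) - X / q * ((μ s : ℝ) / (s : ℝ) ^ 2) =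
            (μ s : ℝ) * ((((Icc 1 X).filter fun k => k ≡ a [MOD q] ∧
            s ^ 2 ∣ k).card : ℝ) - X / ((s : ℝ) ^ 2 * q)) := by field_simp
        rw [e, abs_mul]
        calc |(μ s : ℝ)| * _ ≤ 1 * _ := mul_le_mul_of_nonneg_right h6 (abs_nonneg _)
          _ ≤ 2 := by rw [one_mul]; exact h5
      · have h7 : ((Icc 1 X).filter fun k => k ≡ a [MOD q] ∧ s ^ 2 ∣ k) = ∅ := by
          rw [filter_eq_empty_iff]
          rintro k _ ⟨hk1, hk2⟩
          apply hcs
          have h8 : Nat.Coprime k q := by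
            have := hk1.gcd_eq
            unfold Nat.Coprime
            rw [this]
            exact hc
          exact Nat.Coprime.of_dvd_left ((dvd_pow_self s two_ne_zero).trans hk2) h8
        rw [h7]
        simp
    refine (sum_le_sum h4).trans ?_
    rw [sum_const, Nat.card_Icc, nsmul_eq_mul]
    have : r + 1 - 1 = r := by omega
    rw [this, mul_comm]
  have hts : Tendsto (fun X : ℕ => (∑ s ∈ range (Nat.sqrt X + 1), ff q s) / q) atTop
      (𝓝 (dl q)) := by
    have h1 := (ff_summable q).hasSum.tendsto_sum_nat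
    have h2 := h1.comp ((tendsto_add_atTop_nat 1).comp sqrt_tendsto)
    exact h2.div_const (q : ℝ)
  have herr : Tendsto (fun X : ℕ => 2 / (Nat.sqrt X : ℝ)) atTop (𝓝 0) := by
    have h1 : Tendsto (fun X : ℕ => (Nat.sqrt X : ℝ)) atTop atTop :=
      tendsto_natCast_atTop_atTop.comp sqrt_tendsto
    exact tendsto_const_nhds.div_atTop h1
  rw [← sub_zero (dl q)] at hts
  have h5 : Tendsto (fun X : ℕ => ((SQ q a X).card : ℝ) / X -
      (∑ s ∈ range (Nat.sqrt X + 1), ff q s) / q) atTop (𝓝 0) := by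
    apply squeeze_zero_norm' _ herr
    filter_upwards [eventually_gt_atTop 0] with X hX
    have hXr : (0 : ℝ) < X := by exact_mod_cast hX
    have hr0 : 0 < Nat.sqrt X := Nat.sqrt_pos.2 hX
    have hrr : (0 : ℝ) < Nat.sqrt X := by exact_mod_cast hr0
    have hrX : (Nat.sqrt X : ℝ) * Nat.sqrt X ≤ X := by exact_mod_cast Nat.sqrt_le X
    have e : ((SQ q a X).card : ℝ) / X - (∑ s ∈ range (Nat.sqrt X + 1), ff q s) / q =
        (((SQ q a X).card : ℝ) - X / q * ∑ s ∈ range (Nat.sqrt X + 1), ff q s) / X := by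
      field_simp
    rw [e, Real.norm_eq_abs, abs_div, abs_of_pos hXr, div_le_div_iff₀ hXr hrr]
    have := hmain X
    nlinarith
  have h6 := h5.add hts
  rw [sub_zero, zero_add] at h6
  refine h6.congr fun X => ?_
  ring

/-- the representatives of a class divided by the greatest common divisor -/
def RR (q a : ℕ) : Finset ℕ := (range q).filter fun r =>
  Nat.Coprime r q ∧ r % (q / Nat.gcd a q) = (a / Nat.gcd a q) % (q / Nat.gcd a q)

/-- the weight of a class -/
noncomputable def wt (q a : ℕ) : ℝ :=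
  if Squarefree (Nat.gcd a q) then ((RR q a).card : ℝ) / Nat.gcd a q else 0

lemma floor_lim {g : ℕ} (hg : 0 < g) :
    Tendsto (fun X : ℕ => ((X / g : ℕ) : ℝ) / X) atTop (𝓝 (1 / g)) := by
  have hgr : (0 : ℝ) < g := by exact_mod_cast hg
  have h1 : Tendsto (fun X : ℕ => 1 / (X : ℝ)) atTop (𝓝 0) :=
    tendsto_const_nhds.div_atTop tendsto_natCast_atTop_atTop
  have h2 : Tendsto (fun X : ℕ => ((X / g : ℕ) : ℝ) / X - 1 / g) atTop (𝓝 0) := by
    apply squeeze_zero_norm' _ h1
    filter_upwards [eventually_gt_atTop 0] with X hX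
    have hXr : (0 : ℝ) < X := by exact_mod_cast hX
    have b1 : ((X / g : ℕ) : ℝ) * g ≤ X := by exact_mod_cast Nat.div_mul_le_self X g
    have b2 : (X : ℝ) < (((X / g : ℕ) : ℝ) + 1) * g := by
      have : X < (X / g + 1) * g := by
        have := Nat.lt_div_mul_add hg (a := X)
        rw [add_mul, one_mul]; omega
      exact_mod_cast this
    have c1 : ((X / g : ℕ) : ℝ) ≤ X / g := by rw [le_div_iff₀ hgr]; exact b1
    have c2 : (X : ℝ) / g ≤ ((X / g : ℕ) : ℝ) + 1 := by rw [div_le_iff₀ hgr]; exact b2.le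
    have e : ((X / g : ℕ) : ℝ) / X - 1 / g = (((X / g : ℕ) : ℝ) - X / g) / X := by field_simp
    rw [e, Real.norm_eq_abs, abs_div, abs_of_pos hXr]
    apply div_le_div_of_nonneg_right _ hXr.le
    rw [abs_le]
    constructor <;> linarith
  have h3 := h2.add_const (1 / (g : ℝ))
  simpa using h3

/-- all classes -/
theorem lim_class {q a : ℕ} (hq : 0 < q) (ha : a < q) :
    Tendsto (fun X : ℕ => ((SQ q a X).card : ℝ) / X) atTop (𝓝 (wt q a * dl q)) := by
  set g := Nat.gcd a q with hg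
  have hg0 : 0 < g := Nat.gcd_pos_of_pos_right a hq
  have hgq : g ∣ q := Nat.gcd_dvd_right a q
  have hga : g ∣ a := Nat.gcd_dvd_left a q
  by_cases hsq : Squarefree g
  · have hcard : ∀ X : ℕ, (SQ q a X).card = ∑ r ∈ RR q a, (SQ q r (X / g)).card := by
      intro X
      have hdis : ∀ r ∈ RR q a, ∀ r' ∈ RR q a, r ≠ r' →
          Disjoint (SQ q r (X / g)) (SQ q r' (X / g)) := by
        intro r _ r' _ hne
        rw [Finset.disjoint_left]
        intro n h1 h2
        unfold SQ at h1 h2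
        rw [mem_filter] at h1 h2
        exact hne (h1.2.2.symm.trans h2.2.2)
      rw [← card_biUnion hdis]
      symm
      refine card_bij (fun n _ => g * n) ?_ ?_ ?_
      · intro n hn
        rw [mem_biUnion] at hn
        obtain ⟨r, hr, hn⟩ := hn
        unfold RR at hr
        unfold SQ at hn ⊢
        rw [mem_filter, mem_range] at hr
        rw [mem_filter, mem_Icc] at hn ⊢
        obtain ⟨hrq, hrc, hrm⟩ := hr
        obtain ⟨⟨hn1, hn2⟩, hnsq, hnr⟩ := hn
        have hnc : Nat.Coprime n q := by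
          unfold Nat.Coprime
          rw [Nat.gcd_comm, Nat.gcd_rec, hnr]
          exact hrc
        refine ⟨⟨Nat.mul_pos hg0 hn1, ?_⟩, ?_, ?_⟩
        · rw [mul_comm]
          exact (Nat.le_div_iff_mul_le hg0).1 hn2
        · exact (Nat.squarefree_mul (Nat.Coprime.of_dvd_left hgq hnc.symm)).2 ⟨hsq, hnsq⟩
        · have h1 : n ≡ a / g [MOD (q / g)] := by
            have h2 : n ≡ r [MOD q] := by
              unfold Nat.ModEq; rw [hnr, Nat.mod_eq_of_lt hrq]
            exact (h2.of_dvd (Nat.div_dvd_of_dvd hgq)).trans hrm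
          have h3 : g * n ≡ g * (a / g) [MOD (g * (q / g))] := Nat.ModEq.mul_left' g h1
          rw [Nat.mul_div_cancel' hgq, Nat.mul_div_cancel' hga] at h3
          unfold Nat.ModEq at h3
          rw [h3, Nat.mod_eq_of_lt ha]
      · intro n _ m _ h
        exact Nat.eq_of_mul_eq_mul_left hg0 h
      · intro n hn
        unfold SQ at hn
        rw [mem_filter, mem_Icc] at hn
        obtain ⟨⟨hn1, hn2⟩, hnsq, hna⟩ := hn
        have hgn : g ∣ n := by
          have h1 : n % q = a := hna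
          have h2 := Nat.mod_add_div n q
          rw [h1] at h2
          rw [← h2]
          exact Dvd.dvd.add hga (hgq.mul_right _)
        obtain ⟨m, rfl⟩ := hgn
        have hgcd : Nat.gcd (g * m) q = g := by
          rw [Nat.gcd_comm, Nat.gcd_rec, hna]
        have hcop1 : Nat.Coprime m (q / g) := by
          have h1 : Nat.gcd (g * m) (g * (q / g)) = g := by rw [Nat.mul_div_cancel' hgq]; exact hgcd
          rw [Nat.gcd_mul_left] at h1
          have h2 : g * Nat.gcd m (q / g) = g * 1 := by rw [h1, mul_one]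
          exact Nat.eq_of_mul_eq_mul_left hg0 h2
        have hcop2 : Nat.Coprime g m := (Nat.squarefree_mul_iff.1 hnsq).1
        have hcop : Nat.Coprime m q := by
          rw [← Nat.mul_div_cancel' hgq]
          exact Nat.Coprime.mul_right hcop2.symm hcop1
        refine ⟨m, ?_, rfl⟩
        rw [mem_biUnion]
        refine ⟨m % q, ?_, ?_⟩
        · unfold RR
          rw [mem_filter, mem_range, ← hg]
          refine ⟨Nat.mod_lt _ hq, ?_, ?_⟩
          · unfold Nat.Coprime
            rw [← Nat.gcd_rec, Nat.gcd_comm]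
            exact hcop
          · have h1 : g * m ≡ g * (a / g) [MOD (g * (q / g))] := by
              rw [Nat.mul_div_cancel' hgq, Nat.mul_div_cancel' hga]
              unfold Nat.ModEq
              rw [hna, Nat.mod_eq_of_lt ha]
            have h2 := Nat.ModEq.mul_left_cancel' hg0.ne' h1
            have h3 : m % q ≡ m [MOD (q / g)] := (Nat.mod_modEq m q).of_dvd (Nat.div_dvd_of_dvd hgq)
            exact h3.trans h2
        · unfold SQ
          rw [mem_filter, mem_Icc]
          refine ⟨⟨Nat.pos_of_ne_zero (by rintro rfl; simp at hn1), ?_⟩,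
            (Nat.squarefree_mul_iff.1 hnsq).2.2, rfl⟩
          rw [Nat.le_div_iff_mul_le hg0, mul_comm]
          exact hn2
    have hlim : Tendsto (fun X : ℕ => X / g) atTop atTop := by
      rw [tendsto_atTop]
      intro b
      filter_upwards [eventually_ge_atTop (b * g)] with n hn
      exact (Nat.le_div_iff_mul_le hg0).2 hn
    have h1 : ∀ r ∈ RR q a, Tendsto (fun X : ℕ => ((SQ q r (X / g)).card : ℝ) / X) atTop
        (𝓝 (dl q * (1 / g))) := by
      intro r hr
      unfold RR at hr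
      rw [mem_filter, mem_range] at hr
      have h2 := ((lim_cop hq hr.1 hr.2.1).comp hlim).mul (floor_lim hg0)
      refine h2.congr' ?_
      filter_upwards [eventually_ge_atTop g] with X hX
      simp only [Function.comp_apply]
      have : 0 < X / g := Nat.div_pos hX hg0
      have hr : (0 : ℝ) < ((X / g : ℕ) : ℝ) := by exact_mod_cast this
      field_simp
    have h2 := tendsto_finsetSum (RR q a) h1
    have e1 : ∑ r ∈ RR q a, dl q * (1 / (g : ℝ)) = wt q a * dl q := by
      rw [sum_const, nsmul_eq_mul]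
      unfold wt
      rw [← hg, if_pos hsq]
      ring
    rw [e1] at h2
    refine h2.congr fun X => ?_
    rw [hcard X]
    push_cast
    rw [sum_div]
  · have h0 : ∀ X : ℕ, (SQ q a X).card = 0 := by
      intro X
      rw [card_eq_zero]
      unfold SQ
      rw [filter_eq_empty_iff]
      rintro n _ ⟨h1, h2⟩
      apply hsq
      have hgn : g ∣ n := by
        have h3 := Nat.mod_add_div n q
        rw [h2] at h3
        rw [← h3]
        exact Dvd.dvd.add hga (hgq.mul_right _)
      exact h1.squarefree_of_dvd hgn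
    have e : wt q a * dl q = 0 := by unfold wt; rw [← hg, if_neg hsq, zero_mul]
    rw [e]
    refine tendsto_const_nhds.congr fun X => ?_
    rw [h0 X]
    simp

/-- a union of classes -/
theorem lim_set {q : ℕ} (hq : 0 < q) {K : Finset ℕ} (hK : ∀ a ∈ K, a < q) :
    Tendsto (fun X : ℕ => (((Icc 1 X).filter fun n => Squarefree n ∧ n % q ∈ K).card : ℝ) / X)
      atTop (𝓝 ((∑ a ∈ K, wt q a) * dl q)) := by
  have h1 := tendsto_finsetSum K fun a ha => lim_class hq (hK a ha)
  rw [sum_mul]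
  refine h1.congr fun X => ?_
  rw [← sum_div]
  congr 1
  rw [← Nat.cast_sum]
  congr 1
  have hdis : ∀ r ∈ K, ∀ r' ∈ K, r ≠ r' → Disjoint (SQ q r X) (SQ q r' X) := by
    intro r _ r' _ hne
    rw [Finset.disjoint_left]
    intro n h1 h2
    unfold SQ at h1 h2
    rw [mem_filter] at h1 h2
    exact hne (h1.2.2.symm.trans h2.2.2)
  rw [← card_biUnion hdis]
  congr 1
  ext n
  simp only [SQ, mem_biUnion, mem_filter, mem_Icc]
  constructor
  · rintro ⟨a, ha, h2, h3, h4⟩
    exact ⟨h2, h3, by rw [h4]; exact ha⟩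
  · rintro ⟨h2, h3, h4⟩
    exact ⟨n % q, h4, h2, h3, rfl⟩

/-- all squarefree numbers -/
theorem lim_all {q : ℕ} (hq : 0 < q) :
    Tendsto (fun X : ℕ => (((Icc 1 X).filter fun n => Squarefree n).card : ℝ) / X)
      atTop (𝓝 ((∑ a ∈ range q, wt q a) * dl q)) := by
  refine (lim_set hq (K := range q) (fun a ha => mem_range.1 ha)).congr fun X => ?_
  congr 3
  apply filter_congr
  intro n _
  rw [mem_range]
  exact and_iff_left (Nat.mod_lt _ hq)

end Pool.Agent.N855.GF
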