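import Pool.Agent.N855.GF.Fin17
import Pool.Agent.N972.P17.Par
import Pool.Agent.N218.P17G.Bsd

/-!
# Level 17: all squarefree integers of both signs
-/

set_option autoImplicit false

open scoped Classical

namespace Pool.Agent.N855.GF.Fin17

open Finset Filter Topology
open Pool.Agent.N916.MO (G17 Kn C17)
open Pool.Agent.Y703.CQ (c2)
open Pool.Agent.N919.BS (NS NF Rt17 NS_eq NF_eq Fund core)
open Pool.Agent.N875.P17 (WS Sg fin2S_iff desc)
open Pool.Agent.N875.X15 (Fin2)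
open Pool.Agent.N972.P17 (mD)
open Pool.Agent.Y687 (RankBSD)
open Pool.Agent.N855.GF.Lc17 (Loc lim_Loc)
open Pool.Agent.N855.GF.Ord (Ng)

/-- the criterion for all squarefree integers -/
theorem fin2_all {d : ℤ} (hd : Squarefree d) : Fin2 (WS d) ↔ (Rt17 d ∧ G17 d) := by
  constructor
  · intro h
    have h1 : Rt17 d := by
      rcases Pool.Agent.N809.P17.sg_parity hd ((fin2S_iff hd).1 h) with h2 | h2
      · exact Or.inr h2
      · exact Or.inl h2
    exact ⟨h1, (crit_all hd h1).1 h⟩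
  · rintro ⟨h1, h2⟩
    exact (crit_all hd h1).2 h2

/-- **the rank form for all twists with finitely many rational points and `Ш[2] = 0`** -/
theorem bsd_all {d : ℤ} (hd : Squarefree d) (h : Fin2 (WS d)) :
    RankBSD (-91 * d ^ 2) (-330 * d ^ 3) := by
  have hS := (fin2S_iff hd).1 h
  obtain ⟨h1, h2⟩ := (fin2_all hd).1 h
  rcases lt_or_gt_of_ne hd.ne_zero with h0 | h0
  · have h3 := fam_Kn hd h0 h1
    have h4 := Pool.Agent.N809.P17.crit_neg h3
    rw [(fd_Kn hd h0).2] at h4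
    have h5 := Pool.Agent.N972.P17.bsd_neg h3 (h4.1 h) (by
      rw [(fd_Kn hd h0).2]
      exact (desc hd hS).2.2)
    rw [(fd_Kn hd h0).2] at h5
    exact h5
  · have hJ : jacobiSym d 17 = 1 := by
      rcases h1 with h1 | h1
      · exact h1.2
      · omega
    exact Pool.Agent.N218.P17G.bsd_pos hd h0 hJ hS

/-- lower bounds for lower densities -/
theorem liminf_ge {ι : Type} {l : Filter ι} [l.NeBot] {f g : ι → ℝ} {c : ℝ}
    (hg : Tendsto g l (𝓝 c)) (hle : ∀ X, g X ≤ f X) (hf : ∀ X, f X ≤ 1) : c ≤ liminf f l := by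
  rw [← hg.liminf_eq]
  refine liminf_le_liminf (Eventually.of_forall hle) hg.isBoundedUnder_ge ?_
  exact IsBoundedUnder.isCoboundedUnder_ge ⟨1, by
    rw [eventually_map]
    exact Eventually.of_forall hf⟩

/-- the number of the affine points modulo `p` -/
noncomputable def pts (d : ℤ) (p : ℕ) : ℕ := Nat.card {q : ZMod p × ZMod p //
  q.2 ^ 2 = q.1 ^ 3 + ((-91 * d ^ 2 : ℤ) : ZMod p) * q.1 + ((-330 * d ^ 3 : ℤ) : ZMod p)}

/-- the bad primes -/
theorem bad_iff {d : ℤ} {p : ℕ} (hp : p.Prime) :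
    ((p : ℤ) ∣ 2 * (-4 * (-91 * d ^ 2) ^ 3 - 27 * (-330 * d ^ 3) ^ 2)) ↔ (p : ℤ) ∣ 34 * d := by
  have hpi := Nat.prime_iff_prime_int.1 hp
  have e : (2 : ℤ) * (-4 * (-91 * d ^ 2) ^ 3 - 27 * (-330 * d ^ 3) ^ 2) = 2 ^ 9 * 17 ^ 2 * d ^ 6 := by
    ring
  rw [e]
  constructor
  · intro h
    rcases hpi.dvd_or_dvd h with h | h
    · rcases hpi.dvd_or_dvd h with h | h
      · exact Dvd.dvd.mul_right (dvd_trans (hpi.dvd_of_dvd_pow h) (by norm_num)) d
      · exact Dvd.dvd.mul_right (dvd_trans (hpi.dvd_of_dvd_pow h) (by norm_num)) d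
    · exact Dvd.dvd.mul_left (hpi.dvd_of_dvd_pow h) 34
  · intro h
    refine dvd_trans h ?_
    refine ⟨2 ^ 8 * 17 * d ^ 5, by ring⟩

/-- the `L`-function -/
theorem exists_L {d : ℤ} (h : RankBSD (-91 * d ^ 2) (-330 * d ^ 3)) :
    ∃ F : ℂ → ℂ, (Differentiable ℂ F ∧ ∀ s : ℂ, (3 : ℝ) / 2 < s.re →
      HasProd (fun p : ℕ => if p.Prime ∧ ¬ ((p : ℤ) ∣ 34 * d) then
        (1 - ((p : ℂ) - (pts d p : ℂ)) * (p : ℂ) ^ (-s) + (p : ℂ) ^ (1 - 2 * s))⁻¹ else 1) (F s)) ∧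
      analyticOrderAt F 1 = 0 ∧ F 1 ≠ 0 := by
  obtain ⟨F, h1, h2, h3, -⟩ := h
  refine ⟨F, ⟨h1, fun s hs => ?_⟩, h3, ?_⟩
  · have h4 := h2 s hs
    convert h4 using 1
    funext p
    by_cases hp : p.Prime
    · by_cases hb : (p : ℤ) ∣ 34 * d
      · rw [if_neg (fun h => h.2 hb), if_neg (fun h => h.2 ((bad_iff hp).2 hb))]
      · rw [if_pos ⟨hp, hb⟩, if_pos ⟨hp, fun h => hb ((bad_iff hp).1 h)⟩]
        rfl
    · rw [if_neg (fun h => hp h.1), if_neg (fun h => hp h.1)]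
  · have h5 : AnalyticAt ℂ F 1 := (h1.analyticAt 1)
    exact (h5.analyticOrderAt_eq_zero).1 h3

end Pool.Agent.N855.GF.Fin17
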