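import Pool.Agent.N855.GF.Fin17

/-!
# Counting quadratic fields by the absolute value of the discriminant
-/

set_option autoImplicit false

open scoped Classical

namespace Pool.Agent.N855.GF.Cnt

open Finset Filter Topology
open Pool.Agent.N919.BS (NN NS NF Rt17 NS_eq NF_eq Fund core low1)

/-- the discriminant -/
def dsc (d : ℤ) : ℤ := if d % 4 = 1 then d else 4 * d

theorem ncard_NF (Q : ℤ → Prop) (X : ℕ) :
    {d : ℤ | Squarefree d ∧ (dsc d).natAbs ≤ X ∧ Q d}.ncard = NF Q X := by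
  unfold Pool.Agent.N919.BS.NF
  rw [← Set.ncard_coe_finset]
  symm
  refine Set.ncard_congr (fun D _ => core D) ?_ ?_ ?_
  · intro D hD
    rw [Finset.mem_coe, Finset.mem_filter, Finset.mem_Icc] at hD
    obtain ⟨⟨h1, h2⟩, h3, h4⟩ := hD
    rcases h3 with ⟨h3, h5⟩ | ⟨m, rfl, h3, h5⟩
    · have e : core D = D := if_pos (by omega)
      rw [e] at h4 ⊢
      refine ⟨h3, ?_, h4⟩
      unfold dsc
      rw [if_pos h5]
      omega
    · have e : core (4 * m) = m := by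
        unfold core
        rw [if_neg (by omega)]
        omega
      rw [e] at h4 ⊢
      refine ⟨h3, ?_, h4⟩
      unfold dsc
      rw [if_neg (by omega)]
      omega
  · intro D D' hD hD' h
    rw [Finset.mem_coe, Finset.mem_filter] at hD hD'
    unfold core at h
    rcases hD.2.1 with ⟨-, h5⟩ | ⟨m, rfl, -, h5⟩ <;> rcases hD'.2.1 with ⟨-, h6⟩ | ⟨m', rfl, -, h6⟩
    · rw [if_pos (by omega), if_pos (by omega)] at h
      exact h
    · rw [if_pos (by omega), if_neg (by omega)] at h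
      omega
    · rw [if_neg (by omega), if_pos (by omega)] at h
      omega
    · rw [if_neg (by omega), if_neg (by omega)] at h
      omega
  · rintro d ⟨h2, h1, h3⟩
    unfold dsc at h1
    by_cases h4 : d % 4 = 1
    · rw [if_pos h4] at h1
      have e : core d = d := if_pos (by omega)
      refine ⟨d, ?_, e⟩
      rw [Finset.mem_coe, Finset.mem_filter, Finset.mem_Icc, e]
      exact ⟨by omega, Or.inl ⟨h2, h4⟩, h3⟩
    · rw [if_neg h4] at h1
      have h5 : d % 4 ≠ 0 := by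
        intro h6
        have h7 := h2 2 (by omega)
        rw [Int.isUnit_iff] at h7
        omega
      have e : core (4 * d) = d := by
        unfold core
        rw [if_neg (by omega)]
        omega
      refine ⟨4 * d, ?_, e⟩
      rw [Finset.mem_coe, Finset.mem_filter, Finset.mem_Icc, e]
      exact ⟨by omega, Or.inr ⟨d, rfl, h2, by omega⟩, h3⟩

/-- the field `ℚ` does not matter -/
theorem NF_one' (Q R : ℤ → Prop) (hR : ∀ d, R d ↔ (d ≠ 1 ∧ Q d)) (X : ℕ) :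
    NF R X ≤ NF Q X ∧ NF Q X ≤ NF R X + 1 := by
  unfold Pool.Agent.N919.BS.NF
  constructor
  · refine card_le_card fun D hD => ?_
    have h := mem_filter.1 hD
    exact mem_filter.2 ⟨h.1, h.2.1, ((hR _).1 h.2.2).2⟩
  · refine le_trans (card_le_card (t := insert 1 ((Icc (-(X : ℤ)) X).filter
      fun D => Fund D ∧ R (core D))) fun D hD => ?_) (card_insert_le _ _)
    have h := mem_filter.1 hD
    rw [mem_insert]
    by_cases h1 : core D = 1
    · left
      unfold core at h1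
      rcases h.2.1 with ⟨-, h5⟩ | ⟨m, rfl, -, h5⟩
      · rwa [if_pos (by omega)] at h1
      · rw [if_neg (by omega)] at h1
        omega
    · exact Or.inr (mem_filter.2 ⟨h.1, h.2.1, (hR _).2 ⟨h1, h.2.2⟩⟩)

theorem NF_one (Q : ℤ → Prop) (X : ℕ) :
    NF (fun d => d ≠ 1 ∧ Q d) X ≤ NF Q X ∧ NF Q X ≤ NF (fun d => d ≠ 1 ∧ Q d) X + 1 :=
  NF_one' Q _ (fun _ => Iff.rfl) X

/-- the number of all discriminants -/
theorem NF_le (Q : ℤ → Prop) (X : ℕ) : NF Q X ≤ 2 * X + 1 := by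
  unfold Pool.Agent.N919.BS.NF
  refine (card_le_card (filter_subset _ _)).trans ?_
  rw [Int.card_Icc]
  omega

theorem lowF : ∃ (c : ℝ) (X₀ : ℕ), 0 < c ∧ ∀ X : ℕ, X₀ ≤ X → c * X ≤ (NF (fun _ => True) X : ℝ) := by
  obtain ⟨c₁, X₁, hc₁, hlow⟩ := low1
  refine ⟨c₁, X₁, hc₁, fun X hX => (hlow X hX).trans ?_⟩
  rw [NF_eq]
  exact_mod_cast (by omega)

theorem lowF1 : ∃ (c : ℝ) (X₀ : ℕ), 0 < c ∧ ∀ X : ℕ, X₀ ≤ X →
    c * X ≤ (NF (fun d => d ≠ 1 ∧ True) X : ℝ) := by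
  obtain ⟨c, X₀, hc, h⟩ := lowF
  refine ⟨c / 2, X₀ + ⌈2 / c⌉₊, by positivity, fun X hX => ?_⟩
  have h1 := h X (by omega)
  have h2 : (NF (fun _ => True) X : ℝ) ≤ (NF (fun d => d ≠ 1 ∧ True) X : ℝ) + 1 := by
    exact_mod_cast (NF_one (fun _ => True) X).2
  have h3 : 2 / c ≤ X := (Nat.le_ceil _).trans (by exact_mod_cast (by omega))
  have h4 : 2 ≤ X * c := by rwa [div_le_iff₀ hc] at h3
  linarith

/-- the limit with the trivial field removed -/
theorem lim_one {Q : ℤ → Prop} {L : ℝ} (hL : 0 ≤ L)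
    (h : Tendsto (fun X : ℕ => (NF Q X : ℝ) / (NF (fun _ => True) X : ℝ)) atTop (𝓝 L)) :
    Tendsto (fun X : ℕ => (NF (fun d => d ≠ 1 ∧ Q d) X : ℝ) /
      (NF (fun d => d ≠ 1 ∧ True) X : ℝ)) atTop (𝓝 L) := by
  obtain ⟨c, X₀, hc, hlow⟩ := lowF1
  obtain ⟨c', X₀', hc', hlow'⟩ := lowF
  refine Pool.Agent.N919.BS.ratio hc hlow fun ε hε => ?_
  rw [Metric.tendsto_atTop] at h
  obtain ⟨X₁, h1⟩ := h (ε / 8) (by positivity)
  refine ⟨X₁ + X₀' + 1 + ⌈(1 + L) / (ε / 2)⌉₊, fun X hX => ?_⟩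
  have h2 := h1 X (by omega)
  have hX0 : (0 : ℝ) < X := by
    have : 0 < X := by omega
    exact_mod_cast this
  have hB := hlow' X (by omega)
  have hB0 : (0 : ℝ) < (NF (fun _ => True) X : ℝ) := lt_of_lt_of_le (by positivity) hB
  have hBX : (NF (fun _ => True) X : ℝ) ≤ 2 * X + 1 := by
    exact_mod_cast NF_le (fun _ => True) X
  rw [Real.dist_eq, div_sub' hB0.ne', abs_div, abs_of_pos hB0, div_lt_iff₀ hB0] at h2
  have a1 : (NF (fun d => d ≠ 1 ∧ Q d) X : ℝ) ≤ NF Q X := by exact_mod_cast (NF_one Q X).1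
  have a2 : (NF Q X : ℝ) ≤ NF (fun d => d ≠ 1 ∧ Q d) X + 1 := by exact_mod_cast (NF_one Q X).2
  have b1 : (NF (fun d => d ≠ 1 ∧ True) X : ℝ) ≤ NF (fun _ => True) X := by
    exact_mod_cast (NF_one (fun _ => True) X).1
  have b2 : (NF (fun _ => True) X : ℝ) ≤ NF (fun d => d ≠ 1 ∧ True) X + 1 := by
    exact_mod_cast (NF_one (fun _ => True) X).2
  have h3 : (1 + L) / (ε / 2) ≤ X := (Nat.le_ceil _).trans (by exact_mod_cast (by omega))
  have h4 : 1 + L ≤ X * (ε / 2) := by rwa [div_le_iff₀ (by positivity)] at h3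
  have hX1 : (1 : ℝ) ≤ X := by
    have : 1 ≤ X := by omega
    exact_mod_cast this
  have h5 : ε / 8 * (NF (fun _ => True) X : ℝ) ≤ ε / 8 * (3 * X) :=
    mul_le_mul_of_nonneg_left (by linarith) (by positivity)
  have h6 : L * (NF (fun d => d ≠ 1 ∧ True) X : ℝ) ≤ L * (NF (fun _ => True) X : ℝ) :=
    mul_le_mul_of_nonneg_left b1 hL
  have h7 : L * (NF (fun _ => True) X : ℝ) ≤ L * ((NF (fun d => d ≠ 1 ∧ True) X : ℝ) + 1) :=
    mul_le_mul_of_nonneg_left b2 hL
  rw [abs_lt] at h2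
  rw [abs_le]
  have e1 : (NF (fun _ => True) X : ℝ) * L = L * (NF (fun _ => True) X : ℝ) := mul_comm _ _
  rw [e1] at h2
  have h8 : 0 < ε * X := by positivity
  constructor
  · linarith [h2.1, h2.2]
  · linarith [h2.1, h2.2]

end Pool.Agent.N855.GF.Cnt
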