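import Pool.Agent.N855.GF.Ord
import Pool.Agent.N916.MO.Dn

/-!
# The level 17 criterion: densities for squarefree integers ordered by the absolute value
-/

set_option autoImplicit false

open scoped Classical

namespace Pool.Agent.N855.GF.G17

open Finset Filter Topology
open Pool.Agent.N855.GF Pool.Agent.N855.GF.Ord
open Pool.Agent.N916.MO (C17 count17 jac17_nr R17 mem_R17 c201)
open Pool.Agent.N916.TE (FD)
open Pool.Agent.Y703.CQ (c2 nr)
open Pool.Agent.N969.P15 (Ev)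

/-- the absolute value of the discriminant of `ℚ(√-m)` -/
def Di (m : ℕ) : ℕ := if m % 4 = 3 then m else 4 * m

/-- the density of the squarefree numbers -/
noncomputable def sd : ℝ := 288 / 17 * dl 17

theorem sd_pos : 0 < sd := mul_pos (by norm_num) (dl_pos (by norm_num))

theorem wt_val {a g c : ℕ} (h1 : Nat.gcd a 17 = g) (h2 : Squarefree g) (h3 : (RR 17 a).card = c) :
    wt 17 a = (c : ℝ) / g := by
  unfold wt
  rw [h1, if_pos h2, h3]

theorem wt0 : wt 17 0 = 16 / 17 := by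
  have h17 : Nat.Prime 17 := by norm_num
  rw [wt_val (g := 17) (c := 16) (by decide) h17.squarefree (by decide)]
  norm_num

theorem wt1 {a : ℕ} (h0 : 0 < a) (h1 : a < 17) : wt 17 a = 1 := by
  have h : ∀ a ∈ Finset.Ioo 0 17, Nat.gcd a 17 = 1 ∧ (RR 17 a).card = 1 := by decide
  obtain ⟨h2, h3⟩ := h a (mem_Ioo.2 ⟨h0, h1⟩)
  rw [wt_val (g := 1) (c := 1) h2 squarefree_one h3]
  norm_num

theorem lim_S : Tendsto (fun X : ℕ => (((Icc 1 X).filter fun n : ℕ => Squarefree n).card : ℝ) / X)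
    atTop (𝓝 sd) := by
  have h := lim_all (q := 17) (by norm_num)
  have e : (∑ a ∈ range 17, wt 17 a) = 288 / 17 := by
    rw [sum_range_succ' (fun a => wt 17 a) 16, wt0,
      sum_congr rfl fun a ha => wt1 (Nat.succ_pos a) (by have := mem_range.1 ha; omega)]
    simp
    norm_num
  rw [e] at h
  exact h

theorem R17_eq : R17 = {0, 3, 5, 6, 7, 10, 11, 12, 14} := by
  unfold R17
  decide +kernel

/-- the squarefree numbers which are no squares modulo `17`, or divisible by `17` -/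
theorem lim_n : Tendsto (fun X : ℕ =>
    (((Icc 1 X).filter fun n : ℕ => Squarefree n ∧ jacobiSym n 17 ≠ 1).card : ℝ) / X)
    atTop (𝓝 (19 / 36 * sd)) := by
  have h := lim_set (q := 17) (by norm_num) (K := R17) (fun a ha => by
    have := (mem_filter.1 ha).1
    exact mem_range.1 this)
  have e : (∑ a ∈ R17, wt 17 a) = 152 / 17 := by
    rw [R17_eq]
    rw [sum_insert (by decide), sum_insert (by decide), sum_insert (by decide),
      sum_insert (by decide), sum_insert (by decide), sum_insert (by decide),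
      sum_insert (by decide), sum_insert (by decide), sum_singleton, wt0]
    rw [wt1 (a := 3), wt1 (a := 5), wt1 (a := 6), wt1 (a := 7), wt1 (a := 10), wt1 (a := 11),
      wt1 (a := 12), wt1 (a := 14)] <;> norm_num
  rw [e] at h
  have e2 : (152 : ℝ) / 17 * dl 17 = 19 / 36 * sd := by
    unfold sd
    ring
  rw [e2] at h
  refine h.congr fun X => ?_
  congr 3
  apply filter_congr
  intro n _
  rw [mem_R17]

/-- the squarefree numbers which are squares modulo `17` -/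
theorem lim_p : Tendsto (fun X : ℕ =>
    (((Icc 1 X).filter fun n : ℕ => Squarefree n ∧ jacobiSym n 17 = 1).card : ℝ) / X)
    atTop (𝓝 (17 / 36 * sd)) := by
  have h := lim_S.sub lim_n
  have e : sd - 19 / 36 * sd = 17 / 36 * sd := by ring
  rw [e] at h
  refine h.congr fun X => ?_
  rw [← sub_div]
  congr 1
  have h1 := card_filter_add_card_filter_not (s := (Icc 1 X).filter fun n : ℕ => Squarefree n)
    (fun n : ℕ => jacobiSym n 17 = 1)
  rw [filter_filter, filter_filter] at h1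
  have h2 := congrArg (Nat.cast : ℕ → ℝ) h1
  push_cast at h2
  linarith

/-! ### the residue classes modulo `68` -/

/-- odd discriminants -/
def Ro : Finset ℕ := (range 68).filter fun a : ℕ => a % 4 = 3 ∧ jacobiSym a 17 ≠ 1

/-- even discriminants -/
def Re : Finset ℕ := (range 68).filter fun a : ℕ => a % 4 = 0 ∧ jacobiSym a 17 ≠ 1

theorem jm (n : ℕ) : jacobiSym ((n % 68 : ℕ) : ℤ) 17 = jacobiSym n 17 := by
  rw [jacobiSym.mod_left, jacobiSym.mod_left (n : ℤ)]
  congr 1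
  omega

theorem mem_Ro (n : ℕ) : n % 68 ∈ Ro ↔ n % 4 = 3 ∧ jacobiSym n 17 ≠ 1 := by
  unfold Ro
  rw [mem_filter, mem_range, jm]
  constructor
  · rintro ⟨_, h1, h2⟩
    exact ⟨by omega, h2⟩
  · rintro ⟨h1, h2⟩
    exact ⟨by omega, by omega, h2⟩

theorem mem_Re (n : ℕ) : n % 68 ∈ Re ↔ n % 4 = 0 ∧ jacobiSym n 17 ≠ 1 := by
  unfold Re
  rw [mem_filter, mem_range, jm]
  constructor
  · rintro ⟨_, h1, h2⟩
    exact ⟨by omega, h2⟩
  · rintro ⟨h1, h2⟩
    exact ⟨by omega, by omega, h2⟩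

theorem j4 (m : ℕ) : jacobiSym ((4 * m : ℕ) : ℤ) 17 = jacobiSym m 17 := by
  have h6 : jacobiSym 2 17 = 1 := by
    rw [jacobiSym.at_two (by decide)]
    rfl
  rw [Nat.cast_mul, jacobiSym.mul_left, show ((4 : ℕ) : ℤ) = 2 ^ 2 by norm_num,
    jacobiSym.pow_left, h6, one_pow, one_mul]

theorem sq_mod4 {m : ℕ} (h : Squarefree m) : m % 4 ≠ 0 := by
  intro h4
  have h5 : 2 * 2 ∣ m := by omega
  have := h 2 h5
  rw [Nat.isUnit_iff] at this
  omega

/-- from discriminants to squarefree numbers -/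
theorem cnt (X : ℕ) (C : ℕ → Prop) :
    ((Icc 1 X).filter fun m : ℕ => Squarefree m ∧ jacobiSym m 17 ≠ 1 ∧ C (Di m)).card =
      ((Icc 1 X).filter fun n : ℕ => FD n ∧ n % 68 ∈ Ro ∧ C n).card +
      ((Icc 1 (4 * X)).filter fun n : ℕ => FD n ∧ n % 68 ∈ Re ∧ C n).card := by
  have h1 : ((Icc 1 (4 * X)).filter fun n : ℕ => FD n ∧ n % 68 ∈ Re ∧ C n) =
      ((Icc 1 X).filter fun m : ℕ => Squarefree m ∧ m % 4 ≠ 3 ∧ jacobiSym m 17 ≠ 1 ∧
        C (4 * m)).image fun m => 4 * m := by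
    ext n
    rw [mem_filter, mem_image, mem_Re]
    constructor
    · rintro ⟨h1, h2, ⟨h3, h4⟩, h5⟩
      rw [mem_Icc] at h1
      rcases h2 with h2 | ⟨m, rfl, hsq, hm⟩
      · omega
      · refine ⟨m, ?_, rfl⟩
        rw [mem_filter, mem_Icc]
        rw [j4] at h4
        exact ⟨⟨by omega, by omega⟩, hsq, by omega, h4, h5⟩
    · rintro ⟨m, hm, rfl⟩
      rw [mem_filter, mem_Icc] at hm
      obtain ⟨⟨a1, a2⟩, a3, a4, a5, a6⟩ := hm
      have := sq_mod4 a3
      rw [mem_Icc, j4]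
      exact ⟨⟨by omega, by omega⟩, Or.inr ⟨m, rfl, a3, by omega⟩, ⟨by omega, a5⟩, a6⟩
  have h2 : ((Icc 1 X).filter fun n : ℕ => FD n ∧ n % 68 ∈ Ro ∧ C n) =
      (Icc 1 X).filter fun m : ℕ => Squarefree m ∧ m % 4 = 3 ∧ jacobiSym m 17 ≠ 1 ∧ C m := by
    ext n
    rw [mem_filter, mem_filter, mem_Ro]
    constructor
    · rintro ⟨h1, h2, ⟨h3, h4⟩, h5⟩
      rcases h2 with h2 | ⟨m, rfl, hsq, hm⟩
      · exact ⟨h1, h2.1, h3, h4, h5⟩
      · omega
    · rintro ⟨h1, h2, h3, h4, h5⟩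
      exact ⟨h1, Or.inl ⟨h2, h3⟩, ⟨h3, h4⟩, h5⟩
  rw [h1, h2, card_image_of_injective _ (fun a b h => by simpa using h), ← card_union_of_disjoint]
  · congr 1
    ext m
    rw [mem_union, mem_filter, mem_filter, mem_filter]
    unfold Di
    constructor
    · rintro ⟨h3, h4, h5, h6⟩
      by_cases h7 : m % 4 = 3
      · rw [if_pos h7] at h6
        exact Or.inl ⟨h3, h4, h7, h5, h6⟩
      · rw [if_neg h7] at h6
        exact Or.inr ⟨h3, h4, h7, h5, h6⟩
    · rintro (⟨h3, h4, h7, h5, h6⟩ | ⟨h3, h4, h7, h5, h6⟩)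
      · exact ⟨h3, h4, h5, by rw [if_pos h7]; exact h6⟩
      · exact ⟨h3, h4, h5, by rw [if_neg h7]; exact h6⟩
  · rw [Finset.disjoint_left]
    intro m hm hm'
    exact (mem_filter.1 hm').2.2.1 (mem_filter.1 hm).2.2.1

theorem lim_of_close {f g : ℕ → ℕ} {c L : ℝ}
    (h : ∀ ε : ℝ, 0 < ε → ∃ X₀ : ℕ, ∀ X : ℕ, X₀ ≤ X → |(f X : ℝ) - c * g X| ≤ ε * X)
    (hg : Tendsto (fun X : ℕ => (g X : ℝ) / X) atTop (𝓝 L)) :
    Tendsto (fun X : ℕ => (f X : ℝ) / X) atTop (𝓝 (c * L)) := by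
  have h1 : Tendsto (fun X : ℕ => (f X : ℝ) / X - c * ((g X : ℝ) / X)) atTop (𝓝 0) := by
    rw [Metric.tendsto_atTop]
    intro ε hε
    obtain ⟨X₀, h⟩ := h _ (half_pos hε)
    refine ⟨X₀ + 1, fun X hX => ?_⟩
    have hX1 : (0 : ℝ) < X := by
      have : 0 < X := by omega
      exact_mod_cast this
    have h2 := h X (by omega)
    rw [Real.dist_eq, sub_zero]
    have e : (f X : ℝ) / X - c * ((g X : ℝ) / X) = ((f X : ℝ) - c * g X) / X := by
      ring
    rw [e, abs_div, abs_of_pos hX1, div_lt_iff₀ hX1]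
    have : ε / 2 * X < ε * X := by
      apply mul_lt_mul_of_pos_right _ hX1
      linarith
    linarith
  have h3 := h1.add (hg.const_mul c)
  rw [zero_add] at h3
  refine h3.congr fun X => ?_
  ring

/-- **the negative squarefree integers with the criterion of level `17`** -/
theorem lim_neg : Tendsto (fun X : ℕ =>
    (((Icc 1 X).filter fun m : ℕ => Squarefree m ∧ jacobiSym m 17 ≠ 1 ∧ C17 (Di m)).card : ℝ) / X)
    atTop (𝓝 (c2 * (19 / 36 * sd))) := by
  refine lim_of_close (g := fun X => ((Icc 1 X).filter fun n : ℕ => Squarefree n ∧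
    jacobiSym n 17 ≠ 1).card) ?_ lim_n
  intro ε hε
  have hR : ∀ a : ℕ, jacobiSym a 17 ≠ 1 → (nr 17 a = 1 ∨ 17 ∣ a) := fun a h => jac17_nr.1 h
  obtain ⟨X1, h1⟩ := count17 (m := 68) (by norm_num) ⟨4, by norm_num⟩ (R := Ro)
    (fun a ha => hR a (mem_filter.1 ha).2.2) (ε / 8) (by positivity)
  obtain ⟨X2, h2⟩ := count17 (m := 68) (by norm_num) ⟨4, by norm_num⟩ (R := Re)
    (fun a ha => hR a (mem_filter.1 ha).2.2) (ε / 8) (by positivity)
  refine ⟨X1 + X2, fun X hX => ?_⟩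
  have b1 := h1 X (by omega)
  have b2 := h2 (4 * X) (by omega)
  have k1 := congrArg (Nat.cast : ℕ → ℝ) (cnt X C17)
  have k2 := congrArg (Nat.cast : ℕ → ℝ) (cnt X fun _ => True)
  simp only [and_true] at k2
  push_cast at k1 k2 b2
  have hX0 : (0 : ℝ) ≤ ε * X := by positivity
  rw [abs_le] at b1 b2 ⊢
  rw [k1, k2]
  constructor
  · linarith [b1.1, b2.1]
  · linarith [b1.2, b2.2]

end Pool.Agent.N855.GF.G17
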