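import Pool.Agent.N855.GF.LocQ
import Pool.Agent.N855.GF.G17
import Pool.Agent.N855.P17.ZZ
import Pool.Agent.N809.P17.Res
import Pool.Agent.N809.P17.Pty

/-!
# Level 17: the criterion for all squarefree integers, and the counts
-/

set_option autoImplicit false

open scoped Classical

namespace Pool.Agent.N855.GF.Fin17

open Finset Filter Topology
open Pool.Agent.N916.MO (G17 Kn C17)
open Pool.Agent.N969.P17G (SxP CpE)
open Pool.Agent.Y703.CQ (c2)
open Pool.Agent.N919.BS (NS NF Rt17 NS_eq NF_eq Fund core)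
open Pool.Agent.N875.P17 (WS crit_Cp crit_CpE)
open Pool.Agent.N875.X15 (Fin2)
open Pool.Agent.N972.P17 (Fam Crit mD Cp Cpe Sx)
open Pool.Agent.N916.TE (FD)
open Pool.Agent.Y687 (RankBSD)
open Pool.Agent.N855.GF.Lc17 (Loc lim_Loc)
open Pool.Agent.N855.GF.Ord (Ng Sg)

theorem jneg (n : ℕ) : jacobiSym (-(n : ℤ)) 17 = jacobiSym n 17 :=
  Pool.Agent.N919.BS.js17 (by rw [neg_add_cancel]; exact dvd_zero _)

/-- the discriminant of a negative squarefree integer -/
theorem fd_Kn {d : ℤ} (hd : Squarefree d) (h0 : d < 0) : FD (Kn d) ∧ mD (Kn d) = d := by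
  have h1 := Int.squarefree_natAbs.2 hd
  unfold Kn mD
  split_ifs with h2 h3 h3
  · exact ⟨Or.inl ⟨h1, by omega⟩, by omega⟩
  · omega
  · omega
  · have h4 : d.natAbs % 4 = 1 ∨ d.natAbs % 4 = 2 := by
      have : d.natAbs % 4 ≠ 0 := Pool.Agent.N855.GF.G17.sq_mod4 h1
      omega
    exact ⟨Or.inr ⟨d.natAbs, rfl, h1, h4⟩, by omega⟩

theorem fam_Kn {d : ℤ} (hd : Squarefree d) (h0 : d < 0) (h : Rt17 d) : Fam (Kn d) := by
  refine ⟨(fd_Kn hd h0).1, ?_⟩
  have h1 : jacobiSym d 17 ≠ 1 := by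
    rcases h with h | h
    · omega
    · exact h.2
  have e : d = -((d.natAbs : ℕ) : ℤ) := by omega
  rw [e, jneg] at h1
  unfold Kn
  split_ifs with h2
  · exact h1
  · rw [Pool.Agent.N855.GF.G17.j4]
    exact h1

/-- the criterion for all squarefree integers with root number `1` -/
theorem crit_all {d : ℤ} (hd : Squarefree d) (h : Rt17 d) : Fin2 (WS d) ↔ G17 d := by
  rcases lt_or_gt_of_ne hd.ne_zero with h0 | h0
  · have h1 := Pool.Agent.N809.P17.crit_neg (fam_Kn hd h0 h)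
    rw [(fd_Kn hd h0).2] at h1
    rw [h1]
    unfold G17
    exact ⟨fun h2 => ⟨fun _ => h2, fun h3 => by omega⟩, fun h2 => h2.1 h0⟩
  · have hJ : jacobiSym d 17 = 1 := by
      rcases h with h | h
      · exact h.2
      · omega
    have h1 := Int.squarefree_natAbs.2 hd
    have e : d = ((d.natAbs : ℕ) : ℤ) := by omega
    rw [e] at hJ
    have key : Fin2 (WS d) ↔ SxP (Kn d) := by
      unfold Kn
      split_ifs with h2
      · have h3 : Cp d.natAbs := ⟨h1, by omega, hJ⟩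
        have h4 := crit_Cp h3
        rw [← e] at h4
        rw [h4]
        exact (Pool.Agent.N855.P17.t_SxP d.natAbs h3).symm
      · have h5 : d.natAbs % 4 ≠ 0 := Pool.Agent.N855.GF.G17.sq_mod4 h1
        have h3 : CpE (4 * d.natAbs) := ⟨d.natAbs, rfl, h1, by omega, hJ⟩
        have h4 := crit_CpE h3
        rw [show 4 * d.natAbs / 4 = d.natAbs by omega, ← e] at h4
        exact h4
    rw [key]
    unfold G17
    exact ⟨fun h2 => ⟨fun h3 => by omega, fun _ => h2⟩, fun h2 => h2.2 h0⟩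

/-- the real counts and the natural counts -/
theorem Ng_eq (Q : ℤ → Prop) {X : ℝ} (hX : 0 < X) : Ng Q X = NS Q (⌈X⌉₊ - 1) := by
  have hY : 0 < ⌈X⌉₊ := Nat.ceil_pos.2 hX
  unfold Pool.Agent.N855.GF.Ord.Ng Pool.Agent.N919.BS.NS
  rw [← Set.ncard_coe_finset]
  congr 1
  ext d
  rw [Set.mem_ofPred_eq, Pool.Agent.N855.GF.Ord.abs_lt_iff, coe_filter, Set.mem_ofPred_eq,
    mem_Icc]
  constructor
  · rintro ⟨h1, h2, h3⟩
    exact ⟨⟨by omega, by omega⟩, h1, h3⟩
  · rintro ⟨⟨h1, h2⟩, h3, h4⟩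
    exact ⟨h3, by omega, h4⟩

theorem Sg_eqT (X : ℝ) : Sg X = Ng (fun _ => True) X := by
  unfold Pool.Agent.N855.GF.Ord.Sg Pool.Agent.N855.GF.Ord.Ng
  congr 1
  ext d
  simp

/-- limits of natural counts and of real counts -/
theorem lim_real {Q R : ℤ → Prop} {c : ℝ}
    (h : Tendsto (fun X : ℕ => (NS Q X : ℝ) / (NS R X : ℝ)) atTop (𝓝 c)) :
    Tendsto (fun X : ℝ => (Ng Q X : ℝ) / (Ng R X : ℝ)) atTop (𝓝 c) := by
  refine (h.comp Pool.Agent.N855.GF.Ord.ceil_lim).congr' ?_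
  filter_upwards [eventually_gt_atTop 0] with X hX
  rw [Ng_eq Q hX, Ng_eq R hX]
  rfl

end Pool.Agent.N855.GF.Fin17
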