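import Pool.Agent.N916.MO.Hg
import Pool.Agent.N855.GF.Sq

/-!
# The density of the level 17 criterion with prescribed local components
-/

set_option autoImplicit false
set_option linter.all false

open scoped Classical

namespace Pool.Agent.N855.GF.Lc17

open Finset Filter
open Pool.Agent.N916.MO
open Pool.Agent.Y703.CQ (c2 nr)
open Pool.Agent.N916.AM (LAH dq)
open Pool.Agent.N972.P17 (Sx Sr)
open Pool.Agent.N969.P17G (SxP)
open Pool.Agent.N919.BS (NN NS NF HG Rt17 ratio NF_eq core)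

/-- `Q` depends only on the type of `d = s k M` and on `M` modulo `m` -/
def Lc (m : ℕ) (Q : ℤ → Prop) : Prop :=
  ∀ (s : ℤ) (k M N : ℕ), (s = 1 ∨ s = -1) → (k = 1 ∨ k = 2) → Squarefree M → Squarefree N →
    M % 2 = 1 → N % 2 = 1 → M % m = N % m →
    (Q (s * ((k * M : ℕ) : ℤ)) ↔ Q (s * ((k * N : ℕ) : ℤ)))

/-- the residues with the condition `C` for which `Q` holds -/
noncomputable def KQ (m : ℕ) (Q : ℤ → Prop) (s : ℤ) (k r : ℕ) (C : ℕ → Prop) : Finset ℕ :=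
  (range m).filter fun a => a % 4 = r ∧ C a ∧
    ∃ M : ℕ, Squarefree M ∧ M % 2 = 1 ∧ M % m = a ∧ Q (s * ((k * M : ℕ) : ℤ))

theorem mem_KQ {m : ℕ} (h136 : 136 ∣ m) (hm : 0 < m) {Q : ℤ → Prop} (hQ : Lc m Q) {s : ℤ}
    {k r : ℕ} (hs : s = 1 ∨ s = -1) (hk : k = 1 ∨ k = 2) (hr : r = 1 ∨ r = 3) {C : ℕ → Prop}
    (hC : ∀ n, C (n % m) ↔ C n) {n : ℕ} (hn : Squarefree n) :
    n % m ∈ KQ m Q s k r C ↔ n % 4 = r ∧ C n ∧ Q (s * ((k * n : ℕ) : ℤ)) := by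
  have h4 : n % m % 4 = n % 4 := Nat.mod_mod_of_dvd n (Dvd.dvd.trans (by norm_num) h136)
  unfold KQ
  rw [mem_filter, mem_range, h4, hC]
  constructor
  · rintro ⟨h1, h2, h3, M, h5, h6, h7, h8⟩
    exact ⟨h2, h3, (hQ s k M n hs hk h5 hn h6 (by omega) h7).1 h8⟩
  · rintro ⟨h1, h2, h3⟩
    exact ⟨Nat.mod_lt _ hm, h1, h2, n, hn, by omega, rfl, h3⟩

theorem nr_m {m : ℕ} (h136 : 136 ∣ m) (n : ℕ) : nr 17 (n % m) = nr 17 n := by
  have h17 : n % m % 17 = n % 17 := Nat.mod_mod_of_dvd n (Dvd.dvd.trans (by norm_num) h136)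
  rw [nr17_mod, h17, ← nr17_mod]

theorem dv_m {m : ℕ} (h136 : 136 ∣ m) (n : ℕ) : 17 ∣ n % m ↔ 17 ∣ n :=
  Nat.dvd_mod_iff (Dvd.dvd.trans (by norm_num) h136)

def Cu (n : ℕ) : Prop := nr 17 n = 1
def Cw (n : ℕ) : Prop := 17 ∣ n
def Cp (n : ℕ) : Prop := nr 17 n = 0 ∧ ¬ 17 ∣ n

section

variable {m : ℕ} (h136 : 136 ∣ m) (hm : 0 < m) {Q : ℤ → Prop} (hQ : Lc m Q)

include h136 hm hQ

/-! ### negative integers -/

theorem hg_neg {k r e : ℕ} {t : Bool} {r' s' : ZMod 2} (hk : k = 1 ∨ k = 2) (hr : r = 1 ∨ r = 3)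
    (he : ¬ 17 ∣ e)
    (hG : ∀ M, Squarefree M → M % 4 = r → (G17 (-1 * ((k * M : ℕ) : ℤ)) ↔ C17 (e * M)))
    (hu : ∀ M, Squarefree M → M % 4 = r → ¬ 17 ∣ e * M → (Sx (e * M) ↔ Gu t r' s' M.primeFactors))
    (hw : ∀ M, Squarefree M → M % 4 = r → 17 ∣ e * M → (Sr (e * M) ↔ Gw t r' s' M.primeFactors))
    (lu : LAH m (KQ m Q (-1) k r Cu) (Gu t r' s') c2)
    (lw : LAH m (KQ m Q (-1) k r Cw) (Gw t r' s') c2) :
    ∀ ε : ℝ, 0 < ε → ∃ Y₀ : ℕ, ∀ Y : ℕ, Y₀ ≤ Y →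
      |(NN (fun d => (Rt17 d ∧ Q d) ∧ G17 d) (-1) k r Y : ℝ) -
        c2 * NN (fun d => Rt17 d ∧ Q d) (-1) k r Y| ≤ ε * Y := by
  have h8 : 8 ∣ m := Dvd.dvd.trans (by norm_num) h136
  intro ε hε
  obtain ⟨X1, h1⟩ := dq h8 hm c201.1 c201.2 lu (Kodd hr fun a ha => (mem_filter.1 ha).2.1) (ε / 2)
    (by positivity)
  obtain ⟨X2, h2⟩ := dq h8 hm c201.1 c201.2 lw (Kodd hr fun a ha => (mem_filter.1 ha).2.1) (ε / 2)
    (by positivity)
  refine ⟨X1 + X2, fun Y hY => ?_⟩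
  have b1 := h1 Y (by omega)
  have b2 := h2 Y (by omega)
  have hCu : ∀ n, Cu (n % m) ↔ Cu n := fun n => by unfold Cu; rw [nr_m h136]
  have hCw : ∀ n, Cw (n % m) ↔ Cw n := fun n => dv_m h136 n
  have mu : ∀ {n : ℕ}, Squarefree n → (n % m ∈ KQ m Q (-1) k r Cu ↔
      n % 4 = r ∧ Cu n ∧ Q (-1 * ((k * n : ℕ) : ℤ))) := fun hn =>
    mem_KQ h136 hm hQ (Or.inr rfl) hk hr hCu hn
  have mw : ∀ {n : ℕ}, Squarefree n → (n % m ∈ KQ m Q (-1) k r Cw ↔
      n % 4 = r ∧ Cw n ∧ Q (-1 * ((k * n : ℕ) : ℤ))) := fun hn =>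
    mem_KQ h136 hm hQ (Or.inr rfl) hk hr hCw hn
  have hd : ∀ M, 17 ∣ e * M ↔ 17 ∣ M := by
    intro M
    rw [p17.dvd_mul]
    exact ⟨fun h => h.resolve_left he, Or.inr⟩
  have key : ∀ (P : ℤ → Prop) (Qu Qw : ℕ → Prop),
      (∀ M, 0 < M → Squarefree M → M % 4 = r → ¬ 17 ∣ M → (P (-1 * ((k * M : ℕ) : ℤ)) ↔ Qu M)) →
      (∀ M, 0 < M → Squarefree M → M % 4 = r → 17 ∣ M → (P (-1 * ((k * M : ℕ) : ℤ)) ↔ Qw M)) →
      NN (fun d => (Rt17 d ∧ Q d) ∧ P d) (-1) k r Y =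
        ((Icc 1 Y).filter fun n => Squarefree n ∧ n % m ∈ KQ m Q (-1) k r Cu ∧ Qu n).card +
        ((Icc 1 Y).filter fun n => Squarefree n ∧ n % m ∈ KQ m Q (-1) k r Cw ∧ Qw n).card := by
    intro P Qu Qw hQu hQw
    have hNN : NN (fun d => (Rt17 d ∧ Q d) ∧ P d) (-1) k r Y = ((Icc 1 Y).filter fun M =>
        Squarefree M ∧ M % 4 = r ∧ (Rt17 (-1 * ((k * M : ℕ) : ℤ)) ∧ Q (-1 * ((k * M : ℕ) : ℤ))) ∧
          P (-1 * ((k * M : ℕ) : ℤ))).card := by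
      unfold Pool.Agent.N919.BS.NN
      congr
    rw [hNN, ← card_union_of_disjoint]
    · congr 1
      ext n
      rw [mem_union, mem_filter, mem_filter, mem_filter, mem_Icc]
      constructor
      · rintro ⟨i1, i2, i3, ⟨i4, i6⟩, i5⟩
        rcases (rt_neg hk (by omega)).1 i4 with h | h
        · have h17 : ¬ 17 ∣ n := by
            intro h'
            rw [nr17_dvd h'] at h
            exact absurd h (by decide)
          exact Or.inl ⟨i1, i2, (mu i2).2 ⟨i3, h, i6⟩, (hQu n (by omega) i2 i3 h17).1 i5⟩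
        · exact Or.inr ⟨i1, i2, (mw i2).2 ⟨i3, h, i6⟩, (hQw n (by omega) i2 i3 h).1 i5⟩
      · rintro (⟨i1, i2, i3, i5⟩ | ⟨i1, i2, i3, i5⟩)
        · obtain ⟨i3, h, i6⟩ := (mu i2).1 i3
          have h17 : ¬ 17 ∣ n := by
            intro h'
            unfold Cu at h
            rw [nr17_dvd h'] at h
            exact absurd h (by decide)
          exact ⟨i1, i2, i3, ⟨(rt_neg hk (by omega)).2 (Or.inl h), i6⟩,
            (hQu n (by omega) i2 i3 h17).2 i5⟩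
        · obtain ⟨i3, h, i6⟩ := (mw i2).1 i3
          exact ⟨i1, i2, i3, ⟨(rt_neg hk (by omega)).2 (Or.inr h), i6⟩,
            (hQw n (by omega) i2 i3 h).2 i5⟩
    · rw [Finset.disjoint_left]
      intro n hn hn'
      have k1 := (mem_filter.1 hn).2
      have k2 := (mem_filter.1 hn').2
      have h5 : nr 17 n = 1 := ((mu k1.1).1 k1.2.1).2.1
      have h6 : 17 ∣ n := ((mw k1.1).1 k2.2.1).2.1
      rw [nr17_dvd h6] at h5
      exact absurd h5 (by decide)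
  have k1 := key G17 (fun n => Gu t r' s' n.primeFactors) (fun n => Gw t r' s' n.primeFactors)
    (fun M _ i1 i2 i3 => by
      have i3' : ¬ 17 ∣ e * M := fun h => i3 ((hd M).1 h)
      rw [hG M i1 i2, ← hu M i1 i2 i3']
      exact ⟨fun h => h.1 i3', fun h => ⟨fun _ => h, fun h' => absurd h' i3'⟩⟩)
    (fun M _ i1 i2 i3 => by
      have i3' : 17 ∣ e * M := (hd M).2 i3
      rw [hG M i1 i2, ← hw M i1 i2 i3']
      exact ⟨fun h => h.2 i3', fun h => ⟨fun h' => absurd i3' h', fun _ => h⟩⟩)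
  have k2 := key (fun _ => True) (fun _ => True) (fun _ => True) (fun _ _ _ _ _ => Iff.rfl)
    (fun _ _ _ _ _ => Iff.rfl)
  simp only [and_true] at k2
  have k1' := congrArg (Nat.cast : ℕ → ℝ) k1
  have k2' := congrArg (Nat.cast : ℕ → ℝ) k2
  push_cast at k1' k2'
  rw [abs_le] at b1 b2 ⊢
  rw [k1', k2']
  constructor
  · linarith [b1.1, b2.1]
  · linarith [b1.2, b2.2]

/-! ### positive integers -/

theorem hg_pos {k r e : ℕ} {t : Bool} {r' s' : ZMod 2} (hk : k = 1 ∨ k = 2) (hr : r = 1 ∨ r = 3)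
    (hG : ∀ M, 0 < M → Squarefree M → M % 4 = r → ¬ 17 ∣ M → (G17 (1 * ((k * M : ℕ) : ℤ)) ↔
      Gu t r' s' M.primeFactors))
    (lu : LAH m (KQ m Q 1 k r Cp) (Gu t r' s') c2) :
    ∀ ε : ℝ, 0 < ε → ∃ Y₀ : ℕ, ∀ Y : ℕ, Y₀ ≤ Y →
      |(NN (fun d => (Rt17 d ∧ Q d) ∧ G17 d) 1 k r Y : ℝ) -
        c2 * NN (fun d => Rt17 d ∧ Q d) 1 k r Y| ≤ ε * Y := by
  have h8 : 8 ∣ m := Dvd.dvd.trans (by norm_num) h136
  intro ε hε
  obtain ⟨X1, h1⟩ := dq h8 hm c201.1 c201.2 lu (Kodd hr fun a ha => (mem_filter.1 ha).2.1) ε hε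
  refine ⟨X1, fun Y hY => ?_⟩
  have b1 := h1 Y hY
  have hCp : ∀ n, Cp (n % m) ↔ Cp n := fun n => by unfold Cp; rw [nr_m h136, dv_m h136]
  have mp : ∀ {n : ℕ}, Squarefree n → (n % m ∈ KQ m Q 1 k r Cp ↔
      n % 4 = r ∧ Cp n ∧ Q (1 * ((k * n : ℕ) : ℤ))) := fun hn =>
    mem_KQ h136 hm hQ (Or.inl rfl) hk hr hCp hn
  have key : ∀ (P : ℤ → Prop) (Qu : ℕ → Prop),
      (∀ M, 0 < M → Squarefree M → M % 4 = r → ¬ 17 ∣ M → (P (1 * ((k * M : ℕ) : ℤ)) ↔ Qu M)) →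
      NN (fun d => (Rt17 d ∧ Q d) ∧ P d) 1 k r Y =
        ((Icc 1 Y).filter fun n => Squarefree n ∧ n % m ∈ KQ m Q 1 k r Cp ∧ Qu n).card := by
    intro P Qu hQu
    have hNN : NN (fun d => (Rt17 d ∧ Q d) ∧ P d) 1 k r Y = ((Icc 1 Y).filter fun M =>
        Squarefree M ∧ M % 4 = r ∧ (Rt17 (1 * ((k * M : ℕ) : ℤ)) ∧ Q (1 * ((k * M : ℕ) : ℤ))) ∧
          P (1 * ((k * M : ℕ) : ℤ))).card := by
      unfold Pool.Agent.N919.BS.NN
      congr
    rw [hNN]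
    congr 1
    ext n
    rw [mem_filter, mem_filter, mem_Icc]
    constructor
    · rintro ⟨i1, i2, i3, ⟨i4, i7⟩, i5⟩
      have i6 := (rt_pos hk (by omega)).1 i4
      exact ⟨i1, i2, (mp i2).2 ⟨i3, i6, i7⟩, (hQu n (by omega) i2 i3 i6.2).1 i5⟩
    · rintro ⟨i1, i2, i3, i5⟩
      obtain ⟨i3, i6, i7⟩ := (mp i2).1 i3
      exact ⟨i1, i2, i3, ⟨(rt_pos hk (by omega)).2 i6, i7⟩, (hQu n (by omega) i2 i3 i6.2).2 i5⟩
  have k1 := key G17 (fun n => Gu t r' s' n.primeFactors) hG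
  have k2 := key (fun _ => True) (fun _ => True) (fun _ _ _ _ _ => Iff.rfl)
  simp only [and_true] at k2
  rw [k1, k2]
  exact b1

/-- the criterion with local conditions, in all classes -/
theorem hgl : HG (fun d => Rt17 d ∧ Q d) G17 c2 := by
  have g0 : ∀ {r : ℕ} {s : ℤ} {k : ℕ}, r = 3 → ∀ a ∈ KQ m Q s k r Cu,
      a % 4 = (if (0 : ZMod 2) = 0 then 3 else 1) ∧ nr 17 a = 1 := by
    intro r s k hr a ha
    have := (mem_filter.1 ha).2
    rw [if_pos rfl]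
    exact ⟨this.1.trans hr, this.2.1⟩
  have g1 : ∀ {r : ℕ} {s : ℤ} {k : ℕ}, r = 1 → ∀ a ∈ KQ m Q s k r Cu,
      a % 4 = (if (1 : ZMod 2) = 0 then 3 else 1) ∧ nr 17 a = 1 := by
    intro r s k hr a ha
    have := (mem_filter.1 ha).2
    rw [if_neg (by decide)]
    exact ⟨this.1.trans hr, this.2.1⟩
  have w0 : ∀ {r : ℕ} {s : ℤ} {k : ℕ}, r = 3 → ∀ a ∈ KQ m Q s k r Cw,
      a % 4 = (if (0 : ZMod 2) = 0 then 3 else 1) ∧ 17 ∣ a := by
    intro r s k hr a ha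
    have := (mem_filter.1 ha).2
    rw [if_pos rfl]
    exact ⟨this.1.trans hr, this.2.1⟩
  have w1 : ∀ {r : ℕ} {s : ℤ} {k : ℕ}, r = 1 → ∀ a ∈ KQ m Q s k r Cw,
      a % 4 = (if (1 : ZMod 2) = 0 then 3 else 1) ∧ 17 ∣ a := by
    intro r s k hr a ha
    have := (mem_filter.1 ha).2
    rw [if_neg (by decide)]
    exact ⟨this.1.trans hr, this.2.1⟩
  have p0 : ∀ {r : ℕ} {s : ℤ} {k : ℕ}, r = 1 → ∀ a ∈ KQ m Q s k r Cp,
      a % 4 = (if (0 : ZMod 2) = 0 then 1 else 3) ∧ nr 17 a = 0 ∧ ¬ 17 ∣ a := by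
    intro r s k hr a ha
    have := (mem_filter.1 ha).2
    rw [if_pos rfl]
    exact ⟨this.1.trans hr, this.2.1⟩
  have p1 : ∀ {r : ℕ} {s : ℤ} {k : ℕ}, r = 3 → ∀ a ∈ KQ m Q s k r Cp,
      a % 4 = (if (1 : ZMod 2) = 0 then 1 else 3) ∧ nr 17 a = 0 ∧ ¬ 17 ∣ a := by
    intro r s k hr a ha
    have := (mem_filter.1 ha).2
    rw [if_neg (by decide)]
    exact ⟨this.1.trans hr, this.2.1⟩
  rintro s k r (rfl | rfl) (rfl | rfl) (rfl | rfl)
  · -- 1, 1, 1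
    refine hg_pos h136 hm hQ (t := false) (r' := 0) (s' := 0) (Or.inl rfl) (Or.inl rfl) (e := 1) ?_
      (lah_p h136 hm (fun _ => rfl) (fun h => absurd h (by decide)) (p0 rfl))
    intro M h0 h1 h2 h3
    rw [G_pos (n := M) (by omega) (by rw [Kn_odd (by omega)]; omega)]
    exact SxP_iff (parP0 h2) pf_odd (odd2 (Or.inl h2)) h3
  · -- 1, 1, 3
    refine hg_pos h136 hm hQ (t := true) (r' := 0) (s' := 1) (Or.inl rfl) (Or.inr rfl) (e := 4) ?_
      (lah_p h136 hm (fun h => absurd h (by decide)) (fun _ => Or.inr (by decide))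
        (p1 rfl))
    intro M h0 h1 h2 h3
    rw [G_pos (n := 4 * M) (by omega) (by rw [Kn_ev (by omega)]; omega)]
    exact SxP_iff (parP1 h2) (pf_4 h1.ne_zero) (odd2 (Or.inr h2)) (e17 (by norm_num) h3)
  · -- 1, 2, 1
    refine hg_pos h136 hm hQ (t := true) (r' := 1) (s' := 0) (Or.inr rfl) (Or.inl rfl) (e := 8) ?_
      (lah_p h136 hm (fun h => absurd h (by decide)) (fun _ => Or.inl (by decide))
        (p0 rfl))
    intro M h0 h1 h2 h3
    rw [G_pos (n := 8 * M) (by omega) (by rw [Kn_ev (by omega)]; omega)]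
    exact SxP_iff (parP2 h2) (pf_8 h1.ne_zero) (odd2 (Or.inl h2)) (e17 (by norm_num) h3)
  · -- 1, 2, 3
    refine hg_pos h136 hm hQ (t := true) (r' := 1) (s' := 1) (Or.inr rfl) (Or.inr rfl) (e := 8) ?_
      (lah_p h136 hm (fun h => absurd h (by decide)) (fun _ => Or.inl (by decide))
        (p1 rfl))
    intro M h0 h1 h2 h3
    rw [G_pos (n := 8 * M) (by omega) (by rw [Kn_ev (by omega)]; omega)]
    exact SxP_iff (parP3 h2) (pf_8 h1.ne_zero) (odd2 (Or.inr h2)) (e17 (by norm_num) h3)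
  · -- -1, 1, 1
    refine hg_neg h136 hm hQ (t := true) (r' := 0) (s' := 1) (Or.inl rfl) (Or.inl rfl) (e := 4)
      (by norm_num) ?_ ?_ ?_
      (lah_u h136 hm (fun h => absurd h (by decide)) (fun _ => Or.inr (by decide))
        (g1 rfl))
      (lah_w h136 hm (fun h => absurd h (by decide)) (fun _ => Or.inr (by decide))
        (w1 rfl))
    · intro M h1 h2
      exact G_neg (by have := h1.ne_zero; omega) (by rw [Kn_ev (by omega)]; omega)
    · intro M h1 h2 h3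
      exact Sx_iff (par1 h2) (pf_4 h1.ne_zero) (odd2 (Or.inl h2)) h3
    · intro M h1 h2 h3
      exact Sr_iff (par1 h2) (pf_4 h1.ne_zero) (odd2 (Or.inl h2)) h3
        (mul_ne_zero (by norm_num) h1.ne_zero)
  · -- -1, 1, 3
    refine hg_neg h136 hm hQ (t := false) (r' := 0) (s' := 0) (Or.inl rfl) (Or.inr rfl) (e := 1)
      (by norm_num) ?_ ?_ ?_
      (lah_u h136 hm (fun _ => rfl) (fun h => absurd h (by decide)) (g0 rfl))
      (lah_w h136 hm (fun _ => rfl) (fun h => absurd h (by decide)) (w0 rfl))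
    · intro M h1 h2
      exact G_neg (by have := h1.ne_zero; omega) (by rw [Kn_odd (by omega)]; omega)
    · intro M h1 h2 h3
      rw [one_mul] at h3 ⊢
      exact Sx_iff (par0 h2) pf_odd (odd2 (Or.inr h2)) h3
    · intro M h1 h2 h3
      rw [one_mul] at h3 ⊢
      exact Sr_iff (par0 h2) pf_odd (odd2 (Or.inr h2)) h3 h1.ne_zero
  · -- -1, 2, 1
    refine hg_neg h136 hm hQ (t := true) (r' := 1) (s' := 1) (Or.inr rfl) (Or.inl rfl) (e := 8)
      (by norm_num) ?_ ?_ ?_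
      (lah_u h136 hm (fun h => absurd h (by decide)) (fun _ => Or.inr (by decide))
        (g1 rfl))
      (lah_w h136 hm (fun h => absurd h (by decide)) (fun _ => Or.inr (by decide))
        (w1 rfl))
    · intro M h1 h2
      exact G_neg (by have := h1.ne_zero; omega) (by rw [Kn_ev (by omega)]; omega)
    · intro M h1 h2 h3
      exact Sx_iff (par2 h2) (pf_8 h1.ne_zero) (odd2 (Or.inl h2)) h3
    · intro M h1 h2 h3
      exact Sr_iff (par2 h2) (pf_8 h1.ne_zero) (odd2 (Or.inl h2)) h3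
        (mul_ne_zero (by norm_num) h1.ne_zero)
  · -- -1, 2, 3
    refine hg_neg h136 hm hQ (t := true) (r' := 1) (s' := 0) (Or.inr rfl) (Or.inr rfl) (e := 8)
      (by norm_num) ?_ ?_ ?_
      (lah_u h136 hm (fun h => absurd h (by decide)) (fun _ => Or.inl (by decide))
        (g0 rfl))
      (lah_w h136 hm (fun h => absurd h (by decide)) (fun _ => Or.inl (by decide))
        (w0 rfl))
    · intro M h1 h2
      exact G_neg (by have := h1.ne_zero; omega) (by rw [Kn_ev (by omega)]; omega)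
    · intro M h1 h2 h3
      exact Sx_iff (par3 h2) (pf_8 h1.ne_zero) (odd2 (Or.inr h2)) h3
    · intro M h1 h2 h3
      exact Sr_iff (par3 h2) (pf_8 h1.ne_zero) (odd2 (Or.inr h2)) h3
        (mul_ne_zero (by norm_num) h1.ne_zero)

end

end Pool.Agent.N855.GF.Lc17
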