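import Pool.Agent.N855.GF.Lc17

/-!
# The density of the level 17 criterion in a class given by local conditions
-/

set_option autoImplicit false
set_option linter.all false

open scoped Classical

namespace Pool.Agent.N855.GF.Lc17

open Finset Filter Topology
open Pool.Agent.N916.MO
open Pool.Agent.Y703.CQ (c2 nr)
open Pool.Agent.N919.BS (NN NS NF HG Rt17 ratio NF_eq NS_eq core HG.all root17 sq_type)

/-- the conditions on the root number depends on the class -/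
theorem lc_root {m : ℕ} (h17 : 17 ∣ m) : Lc m Rt17 := by
  intro s k M N hs hk hM hN _ _ h
  have hM0 : 0 < M := Nat.pos_of_ne_zero hM.ne_zero
  have hN0 : 0 < N := Nat.pos_of_ne_zero hN.ne_zero
  have h1 : M % 17 = N % 17 := by
    rw [← Nat.mod_mod_of_dvd M h17, ← Nat.mod_mod_of_dvd N h17, h]
  have hk0 : 0 < k := by omega
  refine root17.mod hs (Nat.mul_pos hk0 hM0) (Nat.mul_pos hk0 hN0) ?_
  rw [Nat.mul_mod, h1, ← Nat.mul_mod]

theorem lc_and {m : ℕ} {P Q : ℤ → Prop} (hP : Lc m P) (hQ : Lc m Q) : Lc m fun d => P d ∧ Q d :=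
  fun s k M N hs hk hM hN h1 h2 h => and_congr (hP s k M N hs hk hM hN h1 h2 h)
    (hQ s k M N hs hk hM hN h1 h2 h)

/-- every class of squarefree numbers has positive lower density -/
theorem low_class {m : ℕ} (hm : 0 < m) {M₀ : ℕ} (hM₀ : Squarefree M₀) :
    ∃ (c : ℝ) (X₀ : ℕ), 0 < c ∧ ∀ X : ℕ, X₀ ≤ X →
      c * X ≤ (((Icc 1 X).filter fun n => Squarefree n ∧ n % m = M₀ % m).card : ℝ) := by
  set g := ∏ p ∈ M₀.primeFactors.filter (fun p => p ∣ m), p with hg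
  set b := ∏ p ∈ M₀.primeFactors.filter (fun p => ¬ p ∣ m), p with hb
  have hgb : g * b = M₀ := by
    rw [hg, hb, prod_filter_mul_prod_filter_not]
    exact Nat.prod_primeFactors_of_squarefree hM₀
  have hcop : Nat.Coprime b m := by
    rw [hb]
    refine Nat.Coprime.prod_left fun p hp => ?_
    rw [mem_filter, Nat.mem_primeFactors] at hp
    exact (Nat.Prime.coprime_iff_not_dvd hp.1.1).2 hp.2
  have hg0 : 0 < g := by
    rw [hg]
    refine prod_pos fun p hp => ?_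
    rw [mem_filter, Nat.mem_primeFactors] at hp
    exact hp.1.1.pos
  have hgsq : Squarefree g := by
    have : g ∣ M₀ := Dvd.intro _ hgb
    exact hM₀.squarefree_of_dvd this
  have hc2 : ∀ n : ℕ, Nat.Coprime n m → Nat.Coprime g n := by
    intro n hn
    rw [hg]
    refine Nat.Coprime.prod_left fun p hp => ?_
    rw [mem_filter, Nat.mem_primeFactors] at hp
    refine (Nat.Prime.coprime_iff_not_dvd hp.1.1).2 fun h => ?_
    have h1 : p ∣ Nat.gcd n m := Nat.dvd_gcd h hp.2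
    rw [hn.gcd_eq_one, Nat.dvd_one] at h1
    exact hp.1.1.ne_one h1
  have hcb : Nat.Coprime (b % m) m := by
    have h := (Nat.mod_modEq b m).gcd_eq
    rw [Nat.Coprime, h]
    exact hcop
  have hl := lim_cop (q := m) (a := b % m) hm (Nat.mod_lt _ hm) hcb
  have hd := dl_pos hm
  have h2 := hl.eventually (lt_mem_nhds (show dl m / 2 < dl m by linarith))
  rw [eventually_atTop] at h2
  obtain ⟨Y₀, hY⟩ := h2
  refine ⟨dl m / (4 * g), g * (Y₀ + 1) + g, by positivity, fun X hX => ?_⟩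
  have hY1 : Y₀ + 1 ≤ X / g := by
    rw [Nat.le_div_iff_mul_le hg0, mul_comm]
    omega
  have h3 := hY (X / g) (by omega)
  have hX0 : (0 : ℝ) < ((X / g : ℕ) : ℝ) := by
    have : 0 < X / g := by omega
    exact_mod_cast this
  rw [lt_div_iff₀ hX0] at h3
  have h4 : (SQ m (b % m) (X / g)).card ≤
      ((Icc 1 X).filter fun n => Squarefree n ∧ n % m = M₀ % m).card := by
    refine card_le_card_of_injOn (fun n => g * n) (fun n hn => ?_) (fun a _ b _ h => ?_)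
    · have hn' : n ∈ SQ m (b % m) (X / g) := hn
      unfold SQ at hn'
      rw [mem_filter, mem_Icc] at hn'
      obtain ⟨⟨n1, n2⟩, n3, n4⟩ := hn'
      have hnc : Nat.Coprime n m := by
        have h5 : Nat.gcd (n % m) m = 1 := by rw [n4]; exact hcb
        rwa [(Nat.mod_modEq n m).gcd_eq] at h5
      simp only [coe_filter, Set.mem_ofPred_eq, mem_Icc]
      refine ⟨⟨Nat.mul_pos hg0 n1, ?_⟩, ?_, ?_⟩
      · rw [mul_comm]
        exact (Nat.le_div_iff_mul_le hg0).1 n2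
      · rw [Nat.squarefree_mul (hc2 n hnc)]
        exact ⟨hgsq, n3⟩
      · rw [← hgb, Nat.mul_mod, n4, ← Nat.mul_mod]
    · exact Nat.eq_of_mul_eq_mul_left hg0 h
  have h5 : (X : ℝ) ≤ 2 * g * ((X / g : ℕ) : ℝ) := by
    have h6 : X < g * (X / g) + g := by
      have := Nat.lt_succ_self X
      have h7 := Nat.div_add_mod X g
      have h8 := Nat.mod_lt X hg0
      omega
    have h9 : g ≤ g * (X / g) := Nat.le_mul_of_pos_right _ (by omega)
    have : X ≤ 2 * (g * (X / g)) := by omega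
    have h10 : (X : ℝ) ≤ ((2 * (g * (X / g)) : ℕ) : ℝ) := by exact_mod_cast this
    push_cast at h10
    linarith
  have h6 : dl m / (4 * g) * X ≤ dl m / 2 * ((X / g : ℕ) : ℝ) := by
    have hgr : (0 : ℝ) < g := by exact_mod_cast hg0
    calc dl m / (4 * g) * X ≤ dl m / (4 * g) * (2 * g * ((X / g : ℕ) : ℝ)) := by gcongr
      _ = dl m / 2 * ((X / g : ℕ) : ℝ) := by field_simp; norm_num
  have h7 : ((SQ m (b % m) (X / g)).card : ℝ) ≤
      (((Icc 1 X).filter fun n => Squarefree n ∧ n % m = M₀ % m).card : ℝ) := by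
    exact_mod_cast h4
  linarith

/-- the eight classes in the fundamental discriminants -/
theorem NN_le_NF {P : ℤ → Prop} {s : ℤ} {k r : ℕ} (hs : s = 1 ∨ s = -1) (hk : k = 1 ∨ k = 2)
    (hr : r = 1 ∨ r = 3) (X : ℕ) : NN P s k r (X / 8) ≤ NF P X := by
  have hmono : ∀ (s : ℤ) (k r a b : ℕ), a ≤ b → NN P s k r a ≤ NN P s k r b := by
    intro s k r a b hab
    unfold Pool.Agent.N919.BS.NN
    refine card_le_card fun n hn => ?_
    rw [mem_filter, mem_Icc] at hn ⊢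
    exact ⟨⟨hn.1.1, by omega⟩, hn.2⟩
  have h1 : X / 8 ≤ X := Nat.div_le_self _ _
  have h2 : X / 8 ≤ X / 4 := Nat.div_le_div_left (by norm_num) (by norm_num)
  rw [NF_eq]
  rcases hs with rfl | rfl <;> rcases hk with rfl | rfl <;> rcases hr with rfl | rfl
  · have := hmono 1 1 1 _ _ h1; omega
  · have := hmono 1 1 3 _ _ h2; omega
  · omega
  · omega
  · have := hmono (-1) 1 1 _ _ h2; omega
  · have := hmono (-1) 1 3 _ _ h1; omega
  · omega
  · omega

/-- the eight classes in the squarefree numbers -/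
theorem NN_le_NS {P : ℤ → Prop} {s : ℤ} {k r : ℕ} (hs : s = 1 ∨ s = -1) (hk : k = 1 ∨ k = 2)
    (hr : r = 1 ∨ r = 3) (X : ℕ) : NN P s k r (X / 8) ≤ NS P X := by
  have hmono : ∀ (s : ℤ) (k r a b : ℕ), a ≤ b → NN P s k r a ≤ NN P s k r b := by
    intro s k r a b hab
    unfold Pool.Agent.N919.BS.NN
    refine card_le_card fun n hn => ?_
    rw [mem_filter, mem_Icc] at hn ⊢
    exact ⟨⟨hn.1.1, by omega⟩, hn.2⟩
  have h1 : X / 8 ≤ X := Nat.div_le_self _ _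
  have h2 : X / 8 ≤ X / 2 := Nat.div_le_div_left (by norm_num) (by norm_num)
  rw [NS_eq]
  rcases hs with rfl | rfl <;> rcases hk with rfl | rfl <;> rcases hr with rfl | rfl
  · have := hmono 1 1 1 _ _ h1; omega
  · have := hmono 1 1 3 _ _ h1; omega
  · have := hmono 1 2 1 _ _ h2; omega
  · have := hmono 1 2 3 _ _ h2; omega
  · have := hmono (-1) 1 1 _ _ h1; omega
  · have := hmono (-1) 1 3 _ _ h1; omega
  · have := hmono (-1) 2 1 _ _ h2; omega
  · have := hmono (-1) 2 3 _ _ h2; omega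

/-- the type of a squarefree integer -/
theorem type_of {d : ℤ} (hd : Squarefree d) : ∃ (s : ℤ) (k M : ℕ), (s = 1 ∨ s = -1) ∧
    (k = 1 ∨ k = 2) ∧ Squarefree M ∧ M % 2 = 1 ∧ d = s * ((k * M : ℕ) : ℤ) := by
  have h1 := Int.squarefree_natAbs.2 hd
  obtain ⟨s, hs, h2⟩ : ∃ s : ℤ, (s = 1 ∨ s = -1) ∧ d = s * (d.natAbs : ℤ) := by
    rcases le_total 0 d with h | h
    · exact ⟨1, Or.inl rfl, by omega⟩
    · exact ⟨-1, Or.inr rfl, by omega⟩
  rcases sq_type h1 with h3 | ⟨M, h3, h4⟩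
  · refine ⟨s, 1, d.natAbs, hs, Or.inl rfl, h1, h3, ?_⟩
    rw [one_mul]
    exact h2
  · refine ⟨s, 2, M, hs, Or.inr rfl, h1.squarefree_of_dvd (Dvd.intro_left 2 h3.symm), h4, ?_⟩
    rw [← h3]
    exact h2

/-- a class with a member has positive lower density -/
theorem low_P {m : ℕ} (h4 : 4 ∣ m) (hm : 0 < m) {P : ℤ → Prop} (hP : Lc m P) {d : ℤ}
    (hd : Squarefree d) (hPd : P d) : ∃ (c : ℝ) (X₀ : ℕ), 0 < c ∧ ∀ X : ℕ, X₀ ≤ X →
      c * X ≤ (NF P X : ℝ) ∧ c * X ≤ (NS P X : ℝ) := by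
  obtain ⟨s, k, M, hs, hk, hM, hM2, rfl⟩ := type_of hd
  obtain ⟨c, X₀, hc, h⟩ := low_class hm hM
  refine ⟨c / 16, 8 * (X₀ + 1), by positivity, fun X hX => ?_⟩
  have h1 := h (X / 8) (by omega)
  have h2 : ((Icc 1 (X / 8)).filter fun n => Squarefree n ∧ n % m = M % m).card ≤
      NN P s k (M % 4) (X / 8) := by
    unfold Pool.Agent.N919.BS.NN
    refine card_le_card fun n hn => ?_
    rw [mem_filter, mem_Icc] at hn ⊢
    obtain ⟨n1, n2, n3⟩ := hn
    have n4 : n % 4 = M % 4 := by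
      rw [← Nat.mod_mod_of_dvd n h4, ← Nat.mod_mod_of_dvd M h4, n3]
    exact ⟨n1, n2, n4, (hP s k n M hs hk n2 hM (by omega) hM2 n3).2 hPd⟩
  have hr : M % 4 = 1 ∨ M % 4 = 3 := by omega
  have h3 := NN_le_NF (P := P) hs hk hr X
  have h5 := NN_le_NS (P := P) hs hk hr X
  have h6 : (X : ℝ) ≤ 16 * ((X / 8 : ℕ) : ℝ) := by
    have : X ≤ 16 * (X / 8) := by omega
    exact_mod_cast this
  have h7 : c / 16 * X ≤ c * ((X / 8 : ℕ) : ℝ) := by
    calc c / 16 * X ≤ c / 16 * (16 * ((X / 8 : ℕ) : ℝ)) := by gcongr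
      _ = c * ((X / 8 : ℕ) : ℝ) := by ring
  have h8 : (((Icc 1 (X / 8)).filter fun n => Squarefree n ∧ n % m = M % m).card : ℝ) ≤
      (NN P s k (M % 4) (X / 8) : ℝ) := by exact_mod_cast h2
  have h9 : (NN P s k (M % 4) (X / 8) : ℝ) ≤ (NF P X : ℝ) := by exact_mod_cast h3
  have h10 : (NN P s k (M % 4) (X / 8) : ℝ) ≤ (NS P X : ℝ) := by exact_mod_cast h5
  constructor <;> linarith

/-- closeness for the fundamental discriminants -/
theorem close_NF {P G : ℤ → Prop} {c : ℝ} (hG : HG P G c) :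
    ∀ ε : ℝ, 0 < ε → ∃ X₀ : ℕ, ∀ X : ℕ, X₀ ≤ X →
      |(NF (fun d => P d ∧ G d) X : ℝ) - c * (NF P X : ℝ)| ≤ ε * X := by
  intro ε hε
  obtain ⟨X₀, hX₀⟩ := hG.all (ε := ε / 8) (by positivity)
  refine ⟨X₀, fun X hX => ?_⟩
  have a := hX₀ X hX
  have e1 := a 1 1 1 1 (Or.inl rfl) (Or.inl rfl) (Or.inl rfl) le_rfl (by norm_num)
  have e2 := a 1 1 3 4 (Or.inl rfl) (Or.inl rfl) (Or.inr rfl) (by norm_num) (by norm_num)
  have e3 := a 1 2 1 8 (Or.inl rfl) (Or.inr rfl) (Or.inl rfl) (by norm_num) (by norm_num)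
  have e4 := a 1 2 3 8 (Or.inl rfl) (Or.inr rfl) (Or.inr rfl) (by norm_num) (by norm_num)
  have e5 := a (-1) 1 1 4 (Or.inr rfl) (Or.inl rfl) (Or.inl rfl) (by norm_num) (by norm_num)
  have e6 := a (-1) 1 3 1 (Or.inr rfl) (Or.inl rfl) (Or.inr rfl) le_rfl (by norm_num)
  have e7 := a (-1) 2 1 8 (Or.inr rfl) (Or.inr rfl) (Or.inl rfl) (by norm_num) (by norm_num)
  have e8 := a (-1) 2 3 8 (Or.inr rfl) (Or.inr rfl) (Or.inr rfl) (by norm_num) (by norm_num)
  rw [Nat.div_one] at e1 e6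
  rw [NF_eq, NF_eq]
  push_cast
  rw [abs_le] at e1 e2 e3 e4 e5 e6 e7 e8 ⊢
  constructor
  · linarith [e1.1, e2.1, e3.1, e4.1, e5.1, e6.1, e7.1, e8.1]
  · linarith [e1.2, e2.2, e3.2, e4.2, e5.2, e6.2, e7.2, e8.2]

/-- closeness for the squarefree integers -/
theorem close_NS {P G : ℤ → Prop} {c : ℝ} (hG : HG P G c) :
    ∀ ε : ℝ, 0 < ε → ∃ X₀ : ℕ, ∀ X : ℕ, X₀ ≤ X →
      |(NS (fun d => P d ∧ G d) X : ℝ) - c * (NS P X : ℝ)| ≤ ε * X := by
  intro ε hε
  obtain ⟨X₀, hX₀⟩ := hG.all (ε := ε / 8) (by positivity)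
  refine ⟨X₀, fun X hX => ?_⟩
  have a := hX₀ X hX
  have e1 := a 1 1 1 1 (Or.inl rfl) (Or.inl rfl) (Or.inl rfl) le_rfl (by norm_num)
  have e2 := a 1 1 3 1 (Or.inl rfl) (Or.inl rfl) (Or.inr rfl) le_rfl (by norm_num)
  have e3 := a 1 2 1 2 (Or.inl rfl) (Or.inr rfl) (Or.inl rfl) (by norm_num) (by norm_num)
  have e4 := a 1 2 3 2 (Or.inl rfl) (Or.inr rfl) (Or.inr rfl) (by norm_num) (by norm_num)
  have e5 := a (-1) 1 1 1 (Or.inr rfl) (Or.inl rfl) (Or.inl rfl) le_rfl (by norm_num)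
  have e6 := a (-1) 1 3 1 (Or.inr rfl) (Or.inl rfl) (Or.inr rfl) le_rfl (by norm_num)
  have e7 := a (-1) 2 1 2 (Or.inr rfl) (Or.inr rfl) (Or.inl rfl) (by norm_num) (by norm_num)
  have e8 := a (-1) 2 3 2 (Or.inr rfl) (Or.inr rfl) (Or.inr rfl) (by norm_num) (by norm_num)
  rw [Nat.div_one] at e1 e2 e5 e6
  rw [NS_eq, NS_eq]
  push_cast
  rw [abs_le] at e1 e2 e3 e4 e5 e6 e7 e8 ⊢
  constructor
  · linarith [e1.1, e2.1, e3.1, e4.1, e5.1, e6.1, e7.1, e8.1]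
  · linarith [e1.2, e2.2, e3.2, e4.2, e5.2, e6.2, e7.2, e8.2]

/-- **density in a class with a member**, both orderings -/
theorem lim_loc {m : ℕ} (h136 : 136 ∣ m) (hm : 0 < m) {Q : ℤ → Prop} (hQ : Lc m Q)
    {d : ℤ} (hd : Squarefree d) (h1 : Rt17 d) (h2 : Q d) :
    Tendsto (fun X : ℕ => (NF (fun d => (Rt17 d ∧ Q d) ∧ G17 d) X : ℝ) /
      (NF (fun d => Rt17 d ∧ Q d) X : ℝ)) atTop (𝓝 c2) ∧
    Tendsto (fun X : ℕ => (NS (fun d => (Rt17 d ∧ Q d) ∧ G17 d) X : ℝ) /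
      (NS (fun d => Rt17 d ∧ Q d) X : ℝ)) atTop (𝓝 c2) := by
  have hP : Lc m fun d => Rt17 d ∧ Q d :=
    lc_and (lc_root (Dvd.dvd.trans (by norm_num) h136)) hQ
  obtain ⟨c, X₀, hc, h3⟩ := low_P (Dvd.dvd.trans (by norm_num) h136) hm hP hd ⟨h1, h2⟩
  have h := hgl h136 hm hQ
  exact ⟨ratio hc (fun X hX => (h3 X hX).1) (close_NF h),
    ratio hc (fun X hX => (h3 X hX).2) (close_NS h)⟩

end Pool.Agent.N855.GF.Lc17
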