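import Pool.Agent.H527R9.CC.T_SQ

/-!
# Local conditions at primes are congruence conditions
-/

set_option autoImplicit false

namespace Pool.Agent.N855.GF.PSq

open Pool.Agent.H527R9.CC (t_SQ)

/-- the product of two squarefree-like integers in the same class is a square -/
theorem sq_congr (p : ℕ) [Fact p.Prime] : ∃ j : ℕ, ∀ a b c : ℤ, a ≠ 0 → b ≠ 0 →
    ¬ ((p : ℤ) ^ 2 ∣ a) → (p : ℤ) ^ j ∣ a - b →
    (IsSquare ((a * c : ℤ) : ℚ_[p]) ↔ IsSquare ((b * c : ℤ) : ℚ_[p])) := by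
  obtain ⟨ε, hε, h⟩ := t_SQ p
  have hp1 : (1 : ℝ) < p := by exact_mod_cast (Fact.out : p.Prime).one_lt
  obtain ⟨j, hj⟩ : ∃ j : ℕ, (p : ℝ) / (p : ℝ) ^ j < ε := by
    have h1 := exists_pow_lt_of_lt_one (div_pos hε (by linarith : (0 : ℝ) < p))
      (inv_lt_one_of_one_lt₀ hp1)
    obtain ⟨n, hn⟩ := h1
    refine ⟨n, ?_⟩
    rw [inv_pow, lt_div_iff₀ (by linarith)] at hn
    rw [div_eq_mul_inv, mul_comm]
    exact hn
  refine ⟨j, fun a b c ha hb hpa hd => ?_⟩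
  have ha' : (a : ℚ_[p]) ≠ 0 := by exact_mod_cast ha
  have hb' : (b : ℚ_[p]) ≠ 0 := by exact_mod_cast hb
  have hna : (1 : ℝ) / p ≤ ‖(a : ℚ_[p])‖ := by
    by_contra hcon
    push Not at hcon
    apply hpa
    have h1 : ‖(a : ℚ_[p])‖ ≤ (p : ℝ) ^ (-((2 : ℕ) : ℤ)) := by
      have h2 := Padic.norm_le_pow_iff_norm_lt_pow_add_one (a : ℚ_[p]) (-((2 : ℕ) : ℤ))
      rw [h2]
      have e : (-((2 : ℕ) : ℤ) + 1) = -1 := by norm_num
      rw [e, zpow_neg_one, ← one_div]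
      exact hcon
    rw [Padic.norm_int_le_pow_iff_dvd] at h1
    exact_mod_cast h1
  have hab : ‖(b : ℚ_[p]) - a‖ ≤ (p : ℝ) ^ (-(j : ℤ)) := by
    have h1 : ‖((a - b : ℤ) : ℚ_[p])‖ ≤ (p : ℝ) ^ (-(j : ℤ)) := by
      rw [Padic.norm_int_le_pow_iff_dvd]
      exact_mod_cast hd
    push_cast at h1
    rwa [norm_sub_rev]
  have hu : IsSquare ((b : ℚ_[p]) / a) := by
    apply h
    have e : (b : ℚ_[p]) / a - 1 = (b - a) / a := by field_simp
    rw [e, norm_div]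
    have hpa : (0 : ℝ) < ‖(a : ℚ_[p])‖ := norm_pos_iff.2 ha'
    rw [div_lt_iff₀ hpa]
    have hp0 : (0 : ℝ) < p := by linarith
    calc ‖(b : ℚ_[p]) - a‖ ≤ (p : ℝ) ^ (-(j : ℤ)) := hab
      _ = ((p : ℝ) / (p : ℝ) ^ j) * (1 / p) := by
        rw [zpow_neg, zpow_natCast]
        field_simp
      _ < ε * (1 / p) := by
        apply mul_lt_mul_of_pos_right hj
        positivity
      _ ≤ ε * ‖(a : ℚ_[p])‖ := by gcongr
  obtain ⟨r, hr⟩ := hu
  have hr0 : r ≠ 0 := by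
    rintro rfl
    rw [mul_zero, div_eq_zero_iff] at hr
    rcases hr with hr | hr
    · exact hb' hr
    · exact ha' hr
  have e : (b : ℚ_[p]) = a * (r * r) := by
    rw [← hr]
    field_simp
  constructor
  · rintro ⟨s, hs⟩
    refine ⟨s * r, ?_⟩
    push_cast at hs ⊢
    rw [e]
    calc (a : ℚ_[p]) * (r * r) * c = (a * c) * (r * r) := by ring
      _ = s * r * (s * r) := by rw [hs]; ring
  · rintro ⟨s, hs⟩
    refine ⟨s / r, ?_⟩
    push_cast at hs ⊢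
    rw [e] at hs
    have e2 : (a : ℚ_[p]) * c = (a * (r * r) * c) / (r * r) := by field_simp
    rw [e2, hs]
    field_simp

/-- a modulus for the local conditions at the primes of `S` -/
theorem loc_mod (S : Finset ℕ) (hS : ∀ p ∈ S, p.Prime) (q : ℕ) (hq : 0 < q) :
    ∃ m : ℕ, q ∣ m ∧ 0 < m ∧ ∀ a b c : ℤ, Squarefree a → Squarefree b → (m : ℤ) ∣ a - b →
      ((∀ (p : ℕ) [Fact p.Prime], p ∈ S → IsSquare ((a * c : ℤ) : ℚ_[p])) ↔
        ∀ (p : ℕ) [Fact p.Prime], p ∈ S → IsSquare ((b * c : ℤ) : ℚ_[p])) := by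
  classical
  have h1 : ∀ p : ℕ, ∃ j : ℕ, ∀ [Fact p.Prime], ∀ a b c : ℤ, a ≠ 0 → b ≠ 0 →
      ¬ ((p : ℤ) ^ 2 ∣ a) → (p : ℤ) ^ j ∣ a - b →
      (IsSquare ((a * c : ℤ) : ℚ_[p]) ↔ IsSquare ((b * c : ℤ) : ℚ_[p])) := by
    intro p
    by_cases hp : p.Prime
    · haveI : Fact p.Prime := ⟨hp⟩
      obtain ⟨j, hj⟩ := sq_congr p
      exact ⟨j, fun {_} => hj⟩
    · refine ⟨0, fun {hf} => ?_⟩
      exact absurd hf.out hp
  choose j hj using h1
  refine ⟨q * ∏ p ∈ S, p ^ j p, Dvd.intro _ rfl, ?_, fun a b c ha hb hd => ?_⟩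
  · exact Nat.mul_pos hq (Finset.prod_pos fun p hp => pow_pos (hS p hp).pos _)
  · have key : ∀ (p : ℕ) [Fact p.Prime], p ∈ S →
        (IsSquare ((a * c : ℤ) : ℚ_[p]) ↔ IsSquare ((b * c : ℤ) : ℚ_[p])) := by
      intro p hf hp
      refine hj p a b c ha.ne_zero hb.ne_zero ?_ ?_
      · intro h
        rw [pow_two] at h
        have h2 := ha _ h
        have h3 := (Nat.prime_iff_prime_int.1 hf.out).not_unit
        exact h3 h2
      · have h2 : (p : ℤ) ^ j p ∣ ((q * ∏ p ∈ S, p ^ j p : ℕ) : ℤ) := by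
          have h3 : p ^ j p ∣ q * ∏ p ∈ S, p ^ j p :=
            Dvd.dvd.mul_left (Finset.dvd_prod_of_mem (fun p => p ^ j p) hp) q
          exact_mod_cast h3
        exact h2.trans hd
    constructor
    · intro h p hf hp
      exact (key p hp).1 (h p hp)
    · intro h p hf hp
      exact (key p hp).2 (h p hp)

end Pool.Agent.N855.GF.PSq
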