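import Pool.Agent.N855.GF.Lim17
import Pool.Agent.N855.GF.PSq

/-!
# Prescribed local components
-/

set_option autoImplicit false

open scoped Classical

namespace Pool.Agent.N855.GF.Lc17

open Finset Filter Topology
open Pool.Agent.N916.MO (G17)
open Pool.Agent.Y703.CQ (c2)
open Pool.Agent.N919.BS (NS NF Rt17 sq_cast sq_neg sq_two)

theorem sq_skM {s : ℤ} {k M : ℕ} (hs : s = 1 ∨ s = -1) (hk : k = 1 ∨ k = 2) (hM : Squarefree M)
    (h2 : M % 2 = 1) : Squarefree (s * ((k * M : ℕ) : ℤ)) := by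
  have h1 : Squarefree (k * M) := by
    rcases hk with rfl | rfl
    · rwa [one_mul]
    · exact (sq_two h2).2 hM
  rcases hs with rfl | rfl
  · rw [one_mul, sq_cast]
    exact h1
  · rw [neg_one_mul, sq_neg, sq_cast]
    exact h1

/-- the local conditions -/
def Loc (inf : Prop) (S : Finset ℕ) (d₀ d : ℤ) : Prop :=
  (inf → 0 < d * d₀) ∧ ∀ (p : ℕ) [Fact p.Prime], p ∈ S → IsSquare ((d * d₀ : ℤ) : ℚ_[p])

theorem lc_Loc (inf : Prop) (S : Finset ℕ) (hS : ∀ p ∈ S, p.Prime) (d₀ : ℤ) :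
    ∃ m : ℕ, 136 ∣ m ∧ 0 < m ∧ Lc m (Loc inf S d₀) := by
  obtain ⟨m, h1, h2, h3⟩ := PSq.loc_mod S hS 136 (by norm_num)
  refine ⟨m, h1, h2, fun s k M N hs hk hM hN hM2 hN2 h => ?_⟩
  have hM0 : 0 < M := Nat.pos_of_ne_zero hM.ne_zero
  have hN0 : 0 < N := Nat.pos_of_ne_zero hN.ne_zero
  have hk0 : 0 < k := by omega
  unfold Loc
  refine and_congr ?_ ?_
  · refine forall_congr' fun _ => ?_
    have e1 : (0 : ℤ) < ((k * M : ℕ) : ℤ) := by exact_mod_cast Nat.mul_pos hk0 hM0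
    have e2 : (0 : ℤ) < ((k * N : ℕ) : ℤ) := by exact_mod_cast Nat.mul_pos hk0 hN0
    rw [show s * ((k * M : ℕ) : ℤ) * d₀ = ((k * M : ℕ) : ℤ) * (s * d₀) by ring,
      show s * ((k * N : ℕ) : ℤ) * d₀ = ((k * N : ℕ) : ℤ) * (s * d₀) by ring,
      mul_pos_iff_of_pos_left e1, mul_pos_iff_of_pos_left e2]
  · refine h3 _ _ d₀ (sq_skM hs hk hM hM2) (sq_skM hs hk hN hN2) ?_
    have e : s * ((k * M : ℕ) : ℤ) - s * ((k * N : ℕ) : ℤ) = (M - N) * (s * k) := by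
      push_cast
      ring
    rw [e]
    refine Dvd.dvd.mul_right ?_ _
    have : ((M : ℤ)) ≡ N [ZMOD m] := by
      exact_mod_cast (show M ≡ N [MOD m] from h)
    exact (Int.modEq_iff_dvd.1 this.symm)

theorem lim_Loc (inf : Prop) (S : Finset ℕ) (hS : ∀ p ∈ S, p.Prime) {d₀ : ℤ}
    (hd : Squarefree d₀) (h1 : Rt17 d₀) :
    Tendsto (fun X : ℕ => (NF (fun d => (Rt17 d ∧ Loc inf S d₀ d) ∧ G17 d) X : ℝ) /
      (NF (fun d => Rt17 d ∧ Loc inf S d₀ d) X : ℝ)) atTop (𝓝 c2) ∧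
    Tendsto (fun X : ℕ => (NS (fun d => (Rt17 d ∧ Loc inf S d₀ d) ∧ G17 d) X : ℝ) /
      (NS (fun d => Rt17 d ∧ Loc inf S d₀ d) X : ℝ)) atTop (𝓝 c2) := by
  obtain ⟨m, h2, h3, h4⟩ := lc_Loc inf S hS d₀
  refine lim_loc h2 h3 h4 hd h1 ⟨fun _ => ?_, fun p _ _ => ⟨(d₀ : ℚ_[p]), ?_⟩⟩
  · exact mul_self_pos.2 hd.ne_zero
  · push_cast
    ring

end Pool.Agent.N855.GF.Lc17
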