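import Pool.Agent.N855.GF.Sq

/-!
# Lower densities of properties of the squarefree integers, ordered by the absolute value
-/

set_option autoImplicit false

open scoped Classical

namespace Pool.Agent.N855.GF.Ord

open Finset Filter Topology

/-- the number of the squarefree integers `d` with `|d| < X` and the property `Q` -/
noncomputable def Ng (Q : ℤ → Prop) (X : ℝ) : ℕ :=
  {d : ℤ | Squarefree d ∧ |(d : ℝ)| < X ∧ Q d}.ncard

/-- the number of the squarefree integers `d` with `|d| < X` -/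
noncomputable def Sg (X : ℝ) : ℕ := {d : ℤ | Squarefree d ∧ |(d : ℝ)| < X}.ncard

lemma sq_neg {m : ℕ} (h : Squarefree m) : Squarefree (-(m : ℤ)) := by
  intro x hx
  rw [dvd_neg] at hx
  exact Int.squarefree_natCast.2 h x hx

lemma abs_lt_iff (d : ℤ) (X : ℝ) : |(d : ℝ)| < X ↔ d.natAbs < ⌈X⌉₊ := by
  rw [Nat.lt_ceil, Nat.cast_natAbs, Int.cast_abs]

lemma sg_finite (X : ℝ) : {d : ℤ | Squarefree d ∧ |(d : ℝ)| < X}.Finite := by
  refine (Finset.finite_toSet (Ioo (-(⌈X⌉₊ : ℤ)) ⌈X⌉₊)).subset fun d hd => ?_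
  have h := (abs_lt_iff d X).1 hd.2
  rw [mem_coe, mem_Ioo]
  omega

/-- a property of positive and of negative squarefree integers -/
lemma Ng_split (P N : ℕ → Prop) {X : ℝ} (hX : 0 < X) :
    Ng (fun d => (0 < d → P d.natAbs) ∧ (d < 0 → N d.natAbs)) X =
      ((Icc 1 (⌈X⌉₊ - 1)).filter fun n => Squarefree n ∧ P n).card +
      ((Icc 1 (⌈X⌉₊ - 1)).filter fun n => Squarefree n ∧ N n).card := by
  set Y := ⌈X⌉₊ with hY
  have hY0 : 0 < Y := Nat.ceil_pos.2 hX
  set A := (Icc 1 (Y - 1)).filter fun n => Squarefree n ∧ P n with hA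
  set B := (Icc 1 (Y - 1)).filter fun n => Squarefree n ∧ N n with hB
  have e : {d : ℤ | Squarefree d ∧ |(d : ℝ)| < X ∧ ((0 < d → P d.natAbs) ∧ (d < 0 → N d.natAbs))} =
      ((A.image fun n : ℕ => (n : ℤ)) ∪ (B.image fun n : ℕ => -(n : ℤ)) : Finset ℤ) := by
    ext d
    rw [Set.mem_ofPred_eq, abs_lt_iff, ← hY, coe_union, coe_image, coe_image, Set.mem_union,
      Set.mem_image, Set.mem_image]
    simp only [hA, hB, coe_filter, mem_Icc, Set.mem_ofPred_eq]
    constructor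
    · rintro ⟨h1, h2, h4, h5⟩
      have h0 : d ≠ 0 := h1.ne_zero
      have h3 := Int.squarefree_natAbs.2 h1
      rcases lt_or_gt_of_ne h0 with h | h
      · right
        exact ⟨d.natAbs, ⟨⟨by omega, by omega⟩, h3, h5 h⟩, by omega⟩
      · left
        exact ⟨d.natAbs, ⟨⟨by omega, by omega⟩, h3, h4 h⟩, by omega⟩
    · rintro (⟨n, ⟨⟨h1, h2⟩, h3, h4⟩, rfl⟩ | ⟨n, ⟨⟨h1, h2⟩, h3, h4⟩, rfl⟩)
      · refine ⟨Int.squarefree_natCast.2 h3, by omega, fun _ => ?_, fun h => by omega⟩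
        rwa [Int.natAbs_natCast]
      · refine ⟨sq_neg h3, by omega, fun h => by omega, fun _ => ?_⟩
        rwa [Int.natAbs_neg, Int.natAbs_natCast]
  unfold Ng
  rw [e, Set.ncard_coe_finset, card_union_of_disjoint, card_image_of_injective,
    card_image_of_injective]
  · intro a b h
    simpa using h
  · intro a b h
    simpa using h
  · rw [Finset.disjoint_left]
    intro d h1 h2
    rw [mem_image] at h1 h2
    obtain ⟨n, hn, rfl⟩ := h1
    obtain ⟨k, hk, h⟩ := h2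
    rw [hA, mem_filter, mem_Icc] at hn
    omega

lemma Sg_Ng (X : ℝ) : Sg X = Ng (fun d => (0 < d → True) ∧ (d < 0 → True)) X := by
  unfold Sg Ng
  congr 1
  ext d
  simp

/-- positive and negative squarefree integers -/
lemma Sg_eq {X : ℝ} (hX : 0 < X) :
    Sg X = 2 * ((Icc 1 (⌈X⌉₊ - 1)).filter fun n => Squarefree n).card := by
  rw [Sg_Ng, Ng_split (fun _ => True) (fun _ => True) hX]
  simp only [and_true]
  ring

lemma Ng_mono {Q Q' : ℤ → Prop} (h : ∀ d : ℤ, Squarefree d → Q d → Q' d) (X : ℝ) :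
    Ng Q X ≤ Ng Q' X :=
  Set.ncard_le_ncard (fun d hd => ⟨hd.1, hd.2.1, h d hd.1 hd.2.2⟩)
    ((sg_finite X).subset fun _ hd => ⟨hd.1, hd.2.1⟩)

lemma Ng_le (Q : ℤ → Prop) (X : ℝ) : Ng Q X ≤ Sg X :=
  Set.ncard_le_ncard (fun _ h => ⟨h.1, h.2.1⟩) (sg_finite X)

lemma ceil_lim : Tendsto (fun X : ℝ => ⌈X⌉₊ - 1) atTop atTop :=
  (tendsto_sub_atTop_nat 1).comp tendsto_nat_ceil_atTop

/-- exact densities -/
theorem lim_Ng {P N : ℕ → Prop} {s cP cN : ℝ} (hs : 0 < s)
    (hS : Tendsto (fun X : ℕ => (((Icc 1 X).filter fun n => Squarefree n).card : ℝ) / X) atTop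
      (𝓝 s))
    (hP : Tendsto (fun X : ℕ => (((Icc 1 X).filter fun n => Squarefree n ∧ P n).card : ℝ) / X)
      atTop (𝓝 (cP * s)))
    (hN : Tendsto (fun X : ℕ => (((Icc 1 X).filter fun n => Squarefree n ∧ N n).card : ℝ) / X)
      atTop (𝓝 (cN * s))) :
    Tendsto (fun X : ℝ => (Ng (fun d => (0 < d → P d.natAbs) ∧ (d < 0 → N d.natAbs)) X : ℝ) /
      Sg X) atTop (𝓝 ((cP + cN) / 2)) := by
  have k2 : Tendsto (fun X : ℕ =>
      (((((Icc 1 X).filter fun n => Squarefree n ∧ P n).card : ℝ) / X +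
        (((Icc 1 X).filter fun n => Squarefree n ∧ N n).card : ℝ) / X) /
      (2 * ((((Icc 1 X).filter fun n => Squarefree n).card : ℝ) / X)))) atTop
      (𝓝 ((cP * s + cN * s) / (2 * s))) := by
    refine (hP.add hN).div (hS.const_mul 2) ?_
    positivity
  have e : (cP * s + cN * s) / (2 * s) = (cP + cN) / 2 := by
    field_simp
  rw [e] at k2
  refine (k2.comp ceil_lim).congr' ?_
  filter_upwards [eventually_gt_atTop 2] with X hX
  have hX0 : (0 : ℝ) < X := by linarith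
  have h2 : 2 < ⌈X⌉₊ := by
    rw [Nat.lt_ceil]
    exact_mod_cast hX
  simp only [Function.comp_apply]
  rw [Sg_eq hX0, Ng_split P N hX0]
  set Y := ⌈X⌉₊ - 1 with hY
  have hY0 : (0 : ℝ) < Y := by
    have : 0 < Y := by omega
    exact_mod_cast this
  set S := ((Icc 1 Y).filter fun n => Squarefree n).card with hSd
  have hS0 : 0 < S := by
    rw [hSd, card_pos]
    refine ⟨1, ?_⟩
    rw [mem_filter, mem_Icc]
    exact ⟨⟨le_refl 1, by omega⟩, squarefree_one⟩
  have hSr : (0 : ℝ) < S := by exact_mod_cast hS0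
  push_cast
  field_simp

/-- lower bounds for the lower density -/
theorem liminf_Ng {Q : ℤ → Prop} {P N : ℕ → Prop} {c : ℝ}
    (h : Tendsto (fun X : ℝ => (Ng (fun d => (0 < d → P d.natAbs) ∧ (d < 0 → N d.natAbs)) X : ℝ) /
      Sg X) atTop (𝓝 c))
    (hP : ∀ m : ℕ, Squarefree m → P m → Q m) (hN : ∀ m : ℕ, Squarefree m → N m → Q (-(m : ℤ))) :
    c ≤ liminf (fun X : ℝ => (Ng Q X : ℝ) / Sg X) atTop := by
  rw [← h.liminf_eq]
  refine liminf_le_liminf (Eventually.of_forall fun X => ?_) ?_ ?_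
  · refine div_le_div_of_nonneg_right (Nat.cast_le.2 (Ng_mono ?_ X)) (Nat.cast_nonneg _)
    rintro d hd ⟨h1, h2⟩
    have h3 := Int.squarefree_natAbs.2 hd
    rcases lt_trichotomy d 0 with h0 | h0 | h0
    · have := hN _ h3 (h2 h0)
      rwa [show -((d.natAbs : ℕ) : ℤ) = d by omega] at this
    · exact absurd h0 hd.ne_zero
    · have := hP _ h3 (h1 h0)
      rwa [show ((d.natAbs : ℕ) : ℤ) = d by omega] at this
  · exact h.isBoundedUnder_ge
  · refine IsBoundedUnder.isCoboundedUnder_ge ?_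
    refine ⟨1, ?_⟩
    rw [eventually_map]
    refine Eventually.of_forall fun X => ?_
    apply div_le_one_of_le₀
    · exact_mod_cast Ng_le Q X
    · positivity

end Pool.Agent.N855.GF.Ord
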