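import Pool.Agent.N855.GF.Lim17

/-!
# The density of the level 17 criterion for the twists of a twist
-/

set_option autoImplicit false

open scoped Classical

namespace Pool.Agent.N855.GF.Tw

open Finset Filter Topology
open Pool.Agent.N916.MO (G17)
open Pool.Agent.Y703.CQ (c2)
open Pool.Agent.N919.BS (NN NS NF HG Rt17 ratio NF_eq NS_eq root17 low1 sq_cast)
open Pool.Agent.N855.GF.Lc17 (Lc lc_and lc_root hgl close_NS)

/-- the squarefree integer in the class of `e d` -/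
def tw (e d : ℤ) : ℤ := e * d / (Int.gcd e d : ℤ) ^ 2

theorem tw_eq {e d e' d' : ℤ} {g : ℕ} (hg : 0 < g) (h : Int.gcd e d = g) (he : e = g * e')
    (hd : d = g * d') : tw e d = e' * d' := by
  unfold tw
  rw [h]
  have e1 : e * d = (g : ℤ) ^ 2 * (e' * d') := by rw [he, hd]; ring
  rw [e1]
  exact Int.mul_ediv_cancel_left _ (pow_ne_zero 2 (by exact_mod_cast hg.ne'))

theorem sqf_mul {a b : ℤ} (ha : Squarefree a) (hb : Squarefree b) (h : Int.gcd a b = 1) :
    Squarefree (a * b) := by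
  rw [← Int.squarefree_natAbs, Int.natAbs_mul, Nat.squarefree_mul]
  · exact ⟨Int.squarefree_natAbs.2 ha, Int.squarefree_natAbs.2 hb⟩
  · exact h

theorem gcd_of_sqf {a b : ℤ} (h : Squarefree (a * b)) : Int.gcd a b = 1 := by
  have h1 : ((Int.gcd a b : ℕ) : ℤ) * (Int.gcd a b : ℕ) ∣ a * b :=
    mul_dvd_mul (Int.gcd_dvd_left ..) (Int.gcd_dvd_right ..)
  have h2 := h _ h1
  rw [Int.ofNat_isUnit, Nat.isUnit_iff] at h2
  exact h2

section

variable {e : ℤ} (he : Squarefree e)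

/-- the structure of a squarefree `d` -/
theorem split {d : ℤ} (he : Squarefree e) (hd : Squarefree d) : ∃ (g : ℕ) (e' d' : ℤ), 0 < g ∧
    Int.gcd e d = g ∧ e = g * e' ∧ d = g * d' ∧ Int.gcd e' d' = 1 ∧ Int.gcd (g : ℤ) d' = 1 ∧
    Int.gcd (g : ℤ) e' = 1 ∧ Squarefree e' ∧ Squarefree d' := by
  have hg : 0 < Int.gcd e d := Int.gcd_pos_of_ne_zero_left _ he.ne_zero
  obtain ⟨e', he'⟩ : ((Int.gcd e d : ℕ) : ℤ) ∣ e := Int.gcd_dvd_left ..
  obtain ⟨d', hd'⟩ : ((Int.gcd e d : ℕ) : ℤ) ∣ d := Int.gcd_dvd_right ..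
  refine ⟨Int.gcd e d, e', d', hg, rfl, he', hd', ?_, ?_, ?_, ?_, ?_⟩
  · have h1 := Int.gcd_mul_left ((Int.gcd e d : ℕ) : ℤ) e' d'
    rw [← he', ← hd', Int.natAbs_natCast] at h1
    have h2 : Int.gcd e d * 1 = Int.gcd e d * Int.gcd e' d' := by rw [mul_one]; exact h1
    exact (Nat.eq_of_mul_eq_mul_left hg h2).symm
  · exact gcd_of_sqf (by rw [← hd']; exact hd)
  · exact gcd_of_sqf (by rw [← he']; exact he)
  · exact he.squarefree_of_dvd (Dvd.intro_left _ he'.symm)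
  · exact hd.squarefree_of_dvd (Dvd.intro_left _ hd'.symm)

theorem tw_sqf {d : ℤ} (he : Squarefree e) (hd : Squarefree d) : Squarefree (tw e d) := by
  obtain ⟨g, e', d', hg, h1, h2, h3, h4, h5, h6, h7, h8⟩ := split he hd
  rw [tw_eq hg h1 h2 h3]
  exact sqf_mul h7 h8 h4

theorem tw_neg {d : ℤ} (he : Squarefree e) (hd : Squarefree d) : tw e (-d) = - tw e d := by
  obtain ⟨g, e', d', hg, h1, h2, h3, h4, h5, h6, h7, h8⟩ := split he hd
  rw [tw_eq hg h1 h2 h3, tw_eq (e' := e') (d' := -d') hg (by rw [Int.gcd_neg]; exact h1) h2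
    (by rw [h3]; ring)]
  ring

/-- the counts -/
noncomputable def T (e : ℤ) (P : ℤ → Prop) (X : ℕ) : ℕ :=
  ((Icc (-(X : ℤ)) X).filter fun d => Squarefree d ∧ P (tw e d)).card

theorem fiber (he : Squarefree e) (P R : ℤ → Prop) (X : ℕ) {g : ℕ} (hg : g ∈ e.natAbs.divisors)
    (hR : ∀ f, R f ↔ (Int.gcd f e = e.natAbs / g ∧ P f)) :
    (((Icc (-(X : ℤ)) X).filter fun d => Squarefree d ∧ P (tw e d)).filter
      fun d => Int.gcd e d = g).card = NS R (e.natAbs / g * X / g) := by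
  obtain ⟨hge, he0⟩ := Nat.mem_divisors.1 hg
  have hg0 : 0 < g := Nat.pos_of_dvd_of_pos hge (Nat.pos_of_ne_zero he0)
  obtain ⟨e', he'⟩ : (g : ℤ) ∣ e := Int.natCast_dvd.2 hge
  have hea : e.natAbs / g = e'.natAbs := by
    rw [he', Int.natAbs_mul, Int.natAbs_natCast, Nat.mul_div_cancel_left _ hg0]
  have he'0 : e' ≠ 0 := by
    rintro rfl
    exact he.ne_zero (by rw [he', mul_zero])
  have he'p : 0 < e'.natAbs := Int.natAbs_pos.2 he'0
  have hge' : Int.gcd (g : ℤ) e' = 1 := gcd_of_sqf (by rw [← he']; exact he)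
  have hle : ∀ d' : ℤ, (e' * d').natAbs ≤ e'.natAbs * X / g ↔ ((g : ℤ) * d').natAbs ≤ X := by
    intro d'
    rw [Nat.le_div_iff_mul_le hg0, Int.natAbs_mul, Int.natAbs_mul, Int.natAbs_natCast, mul_assoc]
    rw [Nat.mul_le_mul_left_iff he'p, mul_comm]
  rw [hea] at hR ⊢
  unfold Pool.Agent.N919.BS.NS
  refine card_bij (fun d _ => tw e d) ?_ ?_ ?_
  · intro d hd
    rw [mem_filter, mem_filter, mem_Icc] at hd
    obtain ⟨⟨h1, h2, h3⟩, h4⟩ := hd
    obtain ⟨g', e'', d', hg', h5, h6, h7, h8, h9, h10, h11, h12⟩ := split he h2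
    have hgg : g' = g := h5.symm.trans h4
    subst hgg
    have hee : e'' = e' := by
      have : (g' : ℤ) * e'' = g' * e' := h6.symm.trans he'
      exact mul_left_cancel₀ (by exact_mod_cast hg'.ne') this
    subst hee
    have ht := tw_eq hg' h5 h6 h7
    have h13 : (e'' * d').natAbs ≤ e''.natAbs * X / g' := (hle d').2 (by rw [← h7]; omega)
    refine mem_filter.2 ⟨mem_Icc.2 (by rw [ht]; omega), tw_sqf he h2, (hR _).2 ⟨?_, h3⟩⟩
    rw [ht, h6, mul_comm (g' : ℤ) e'', Int.gcd_mul_left, Int.gcd_comm, h9, mul_one]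
  · intro d hd d₂ hd₂ h
    rw [mem_filter, mem_filter] at hd hd₂
    obtain ⟨⟨-, h2, -⟩, h4⟩ := hd
    obtain ⟨⟨-, k2, -⟩, k4⟩ := hd₂
    obtain ⟨a, ha⟩ : (g : ℤ) ∣ d := by rw [← h4]; exact Int.gcd_dvd_right ..
    obtain ⟨b, hb⟩ : (g : ℤ) ∣ d₂ := by rw [← k4]; exact Int.gcd_dvd_right ..
    have h' : tw e d = tw e d₂ := h
    rw [tw_eq hg0 h4 he' ha, tw_eq hg0 k4 he' hb] at h'
    rw [ha, hb, mul_left_cancel₀ he'0 h']
  · intro f hf
    obtain ⟨h1, h2, h34⟩ := mem_filter.1 hf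
    obtain ⟨h3, h4⟩ := (hR f).1 h34
    rw [mem_Icc] at h1
    obtain ⟨d', hd'⟩ : e' ∣ f := by
      rw [← Int.natAbs_dvd, ← h3]
      exact Int.gcd_dvd_left ..
    have h5 : Int.gcd d' g = 1 := by
      rw [hd', he', mul_comm (g : ℤ) e', Int.gcd_mul_left] at h3
      exact Nat.eq_of_mul_eq_mul_left he'p (by rw [h3, mul_one])
    have h6 : Int.gcd e' d' = 1 := gcd_of_sqf (by rw [← hd']; exact h2)
    have h7 : Squarefree ((g : ℤ) * d') := by
      refine sqf_mul ?_ ?_ (by rw [Int.gcd_comm]; exact h5)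
      · exact he.squarefree_of_dvd (Dvd.intro _ he'.symm)
      · exact h2.squarefree_of_dvd (Dvd.intro_left _ hd'.symm)
    have h8 : Int.gcd e ((g : ℤ) * d') = g := by
      rw [he', Int.gcd_mul_left, h6, Int.natAbs_natCast, mul_one]
    have ht : tw e ((g : ℤ) * d') = f := by rw [tw_eq hg0 h8 he' rfl, ← hd']
    have h9 : ((g : ℤ) * d').natAbs ≤ X := (hle d').1 (by rw [← hd']; omega)
    refine ⟨(g : ℤ) * d', ?_, ht⟩
    rw [mem_filter, mem_filter, mem_Icc]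
    exact ⟨⟨by omega, h7, by rw [ht]; exact h4⟩, h8⟩

theorem T_eq (he : Squarefree e) (P : ℤ → Prop) (X : ℕ) : T e P X = ∑ g ∈ e.natAbs.divisors,
    NS (fun f => Int.gcd f e = e.natAbs / g ∧ P f) (e.natAbs / g * X / g) := by
  unfold T
  rw [card_eq_sum_card_fiberwise (f := fun d => Int.gcd e d) (t := e.natAbs.divisors)]
  · exact sum_congr rfl fun g hg => fiber he P _ X hg fun _ => Iff.rfl
  · intro d _
    rw [mem_coe, Nat.mem_divisors]
    exact ⟨Int.natCast_dvd.1 (Int.gcd_dvd_left ..), Int.natAbs_ne_zero.2 he.ne_zero⟩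

theorem lc_gcd (e : ℤ) (he : e ≠ 0) (r : ℕ) : Lc (136 * e.natAbs) (fun f => Int.gcd f e = r) := by
  intro s k M N hs hk hM hN _ _ h
  have key : ∀ M : ℕ, Int.gcd (s * ((k * M : ℕ) : ℤ)) e = Nat.gcd (k * M) e.natAbs := by
    intro M
    unfold Int.gcd
    rw [Int.natAbs_mul, Int.natAbs_natCast]
    rcases hs with rfl | rfl <;> simp
  have h1 : M ≡ N [MOD e.natAbs] := Nat.ModEq.of_mul_left 136 h
  show Int.gcd (s * ((k * M : ℕ) : ℤ)) e = r ↔ Int.gcd (s * ((k * N : ℕ) : ℤ)) e = r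
  rw [key, key, (h1.mul_left k).gcd_eq]

theorem close_T (he : Squarefree e) : ∀ ε : ℝ, 0 < ε → ∃ X₀ : ℕ, ∀ X : ℕ, X₀ ≤ X →
    |(T e (fun d => Rt17 d ∧ G17 d) X : ℝ) - c2 * (T e Rt17 X : ℝ)| ≤ ε * X := by
  intro ε hε
  have he0 : 0 < e.natAbs := Int.natAbs_pos.2 he.ne_zero
  have hm : 0 < 136 * e.natAbs := by omega
  set E : ℕ := e.natAbs with hE
  have h1 : ∀ g : ℕ, ∃ X₀ : ℕ, ∀ X : ℕ, X₀ ≤ X →
      |(NS (fun d => (Rt17 d ∧ Int.gcd d e = E / g) ∧ G17 d) X : ℝ) -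
        c2 * (NS (fun d => Rt17 d ∧ Int.gcd d e = E / g) X : ℝ)| ≤ ε / (E * (E.divisors.card + 1)) * X :=
    fun g => close_NS (hgl (Dvd.intro _ rfl) hm (lc_gcd e he.ne_zero (E / g))) _ (by positivity)
  choose X₀ hX₀ using h1
  refine ⟨E * ∑ g ∈ E.divisors, X₀ g, fun X hX => ?_⟩
  rw [T_eq he, T_eq he]
  push_cast
  rw [mul_sum, ← sum_sub_distrib]
  refine (abs_sum_le_sum_abs _ _).trans ?_
  have hb : ∀ g ∈ E.divisors, |(NS (fun f => Int.gcd f e = E / g ∧ Rt17 f ∧ G17 f)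
      (E / g * X / g) : ℝ) - c2 * (NS (fun f => Int.gcd f e = E / g ∧ Rt17 f) (E / g * X / g) : ℝ)| ≤
      ε / (E.divisors.card + 1) * X := by
    intro g hg
    obtain ⟨hge, -⟩ := Nat.mem_divisors.1 hg
    have hg0 : 0 < g := Nat.pos_of_dvd_of_pos hge he0
    have hEg : 0 < E / g := Nat.div_pos (Nat.le_of_dvd he0 hge) hg0
    have hY0 : X₀ g ≤ E / g * X / g := by
      rw [Nat.le_div_iff_mul_le hg0]
      have k1 : X₀ g ≤ ∑ g ∈ E.divisors, X₀ g :=
        single_le_sum (f := X₀) (fun _ _ => Nat.zero_le _) hg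
      have k2 : X₀ g * g ≤ (∑ g ∈ E.divisors, X₀ g) * E :=
        Nat.mul_le_mul k1 (Nat.le_of_dvd he0 hge)
      have k3 : 1 * X ≤ E / g * X := Nat.mul_le_mul_right X hEg
      calc X₀ g * g ≤ (∑ g ∈ E.divisors, X₀ g) * E := k2
        _ = E * ∑ g ∈ E.divisors, X₀ g := mul_comm _ _
        _ ≤ X := hX
        _ ≤ E / g * X := by omega
    have hY1 : E / g * X / g ≤ E * X := by
      refine (Nat.div_le_self _ _).trans (Nat.mul_le_mul_right X (Nat.div_le_self _ _))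
    have h2 := hX₀ g _ hY0
    have e1 : (fun f => Int.gcd f e = E / g ∧ Rt17 f ∧ G17 f) =
        fun d => (Rt17 d ∧ Int.gcd d e = E / g) ∧ G17 d := by
      funext f
      exact propext ⟨fun h => ⟨⟨h.2.1, h.1⟩, h.2.2⟩, fun h => ⟨h.1.2, h.1.1, h.2⟩⟩
    have e2 : (fun f => Int.gcd f e = E / g ∧ Rt17 f) = fun d => Rt17 d ∧ Int.gcd d e = E / g := by
      funext f
      exact propext and_comm
    rw [e1, e2]
    refine h2.trans ?_
    have hY2 : ((E / g * X / g : ℕ) : ℝ) ≤ E * X := by exact_mod_cast hY1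
    have hEr : (0 : ℝ) < E := by exact_mod_cast he0
    calc ε / (E * (E.divisors.card + 1)) * ((E / g * X / g : ℕ) : ℝ) ≤
        ε / (E * (E.divisors.card + 1)) * (E * X) := by gcongr
      _ = ε / (E.divisors.card + 1) * X := by field_simp
  refine (sum_le_sum hb).trans ?_
  rw [sum_const, nsmul_eq_mul]
  have hc : (0 : ℝ) ≤ (E.divisors.card : ℝ) := Nat.cast_nonneg _
  rw [← mul_assoc]
  refine mul_le_mul_of_nonneg_right ?_ (Nat.cast_nonneg _)
  rw [mul_div_assoc', div_le_iff₀ (by positivity)]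
  nlinarith

/-- half of the twists have root number `1` -/
theorem half_T' (he : Squarefree e) (X : ℕ) (R Q : ℤ → Prop) (hR : ∀ f, R f ↔ ¬ Rt17 f)
    (hQ : ∀ f, Q f ↔ True) : 2 * T e Rt17 X = NS Q X := by
  have h1 : T e Rt17 X = T e R X := by
    unfold T
    refine card_bij (fun d _ => -d) ?_ ?_ ?_
    · intro d hd
      rw [mem_filter, mem_Icc] at hd ⊢
      obtain ⟨h1, h2, h3⟩ := hd
      refine ⟨by omega, ?_, ?_⟩
      · rw [Pool.Agent.N919.BS.sq_neg]
        exact h2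
      · rw [tw_neg he h2, hR]
        exact (root17.one _ (tw_sqf he h2).ne_zero).1 h3
    · intro a _ b _ h
      exact neg_injective h
    · intro d hd
      rw [mem_filter, mem_Icc] at hd
      obtain ⟨h1, h2, h3⟩ := hd
      have h4 : Squarefree (-d) := by
        rw [Pool.Agent.N919.BS.sq_neg]
        exact h2
      refine ⟨-d, ?_, neg_neg d⟩
      rw [mem_filter, mem_Icc]
      refine ⟨by omega, h4, ?_⟩
      rw [root17.one _ (tw_sqf he h4).ne_zero, ← tw_neg he h4, neg_neg, ← hR]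
      exact h3
  have h2 : T e Rt17 X + T e R X = NS Q X := by
    have h3 := card_filter_add_card_filter_not (s := (Icc (-(X : ℤ)) X).filter fun d => Squarefree d)
      (fun d => Rt17 (tw e d))
    rw [filter_filter, filter_filter] at h3
    have e1 : T e R X = ((Icc (-(X : ℤ)) X).filter fun d => Squarefree d ∧ ¬ Rt17 (tw e d)).card := by
      unfold T
      congr 1
      ext d
      rw [mem_filter, mem_filter, hR]
    have e2 : NS Q X = ((Icc (-(X : ℤ)) X).filter fun d => Squarefree d).card := by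
      unfold Pool.Agent.N919.BS.NS
      congr 1
      ext d
      rw [mem_filter, mem_filter, hQ, and_true]
    rw [e1, e2, ← h3]
    rfl
  omega

theorem half_T (he : Squarefree e) (X : ℕ) : 2 * T e Rt17 X = NS (fun _ => True) X :=
  half_T' he X (fun f => ¬ Rt17 f) (fun _ => True) (fun _ => Iff.rfl) (fun _ => Iff.rfl)

/-- **the twists of a twist** -/
theorem lim_T (he : Squarefree e) : Tendsto (fun X : ℕ =>
    (T e (fun d => Rt17 d ∧ G17 d) X : ℝ) / (NS (fun _ => True) X : ℝ)) atTop (𝓝 (c2 / 2)) := by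
  obtain ⟨c₁, X₁, hc₁, hlow⟩ := low1
  refine ratio hc₁ (X₁ := X₁) (fun X hX => (hlow X hX).trans ?_) ?_
  · rw [NS_eq]
    exact_mod_cast (by omega)
  · intro ε hε
    obtain ⟨X₀, h⟩ := close_T he ε hε
    refine ⟨X₀, fun X hX => ?_⟩
    have h1 := h X hX
    have h2 : (NS (fun _ => True) X : ℝ) = 2 * (T e Rt17 X : ℝ) := by
      rw [← half_T he X]
      push_cast
      ring
    have e1 : c2 / 2 * (2 * (T e Rt17 X : ℝ)) = c2 * (T e Rt17 X : ℝ) := by ring
    rw [h2, e1]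
    exact h1

end

end Pool.Agent.N855.GF.Tw
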