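import Pool.Agent.N855.GF.All17
import Pool.Agent.N855.GF.Tw
import Pool.Agent.N855.GF.LTw

/-!
# The twists of the twists: rank zero and central values
-/

set_option autoImplicit false

open scoped Classical

namespace Pool.Agent.N855.GF.TwL

open Finset Filter Topology
open Pool.Agent.N916.MO (G17)
open Pool.Agent.N919.BS (NS Rt17)
open Pool.Agent.N875.P17 (WS)
open Pool.Agent.N875.X15 (Fin2)
open Pool.Agent.Z702 (S_TRN)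
open Pool.Agent.N855.GF
open Pool.Agent.N855.GF.Tw (tw split tw_eq tw_sqf T lim_T)
open Pool.Agent.Y700 (VR)

theorem WS_Δ {t : ℤ} (ht : t ≠ 0) : (WS t).Δ ≠ 0 := by
  have e : (WS t).Δ = ((2 ^ 12 * 17 ^ 2 * t ^ 6 : ℤ) : ℚ) := by
    unfold WS
    simp only [WeierstrassCurve.Δ, WeierstrassCurve.b₂, WeierstrassCurve.b₄,
      WeierstrassCurve.b₆, WeierstrassCurve.b₈]
    push_cast
    ring
  rw [e]
  exact_mod_cast mul_ne_zero (by norm_num) (pow_ne_zero 6 ht)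

theorem vrT (g t : ℤ) (hg : g ≠ 0) : VR (WS (g ^ 2 * t)) (WS t) (g : ℚ) 0 0 0 := by
  refine ⟨by exact_mod_cast hg, ?_, ?_, ?_, ?_, ?_⟩
  · show (g : ℚ) * 0 = 0 + 2 * 0
    ring
  · show (g : ℚ) ^ 2 * 0 = 0 - 0 * 0 + 3 * 0 - 0 ^ 2
    ring
  · show (g : ℚ) ^ 3 * 0 = 0 + 0 * 0 + 2 * 0
    ring
  · show (g : ℚ) ^ 4 * ((-91 * t ^ 2 : ℤ) : ℚ) = ((-91 * (g ^ 2 * t) ^ 2 : ℤ) : ℚ) - 0 * 0 + 2 * 0 * 0 -
      (0 + 0 * 0) * 0 + 3 * 0 ^ 2 - 2 * 0 * 0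
    push_cast
    ring
  · show (g : ℚ) ^ 6 * ((-330 * t ^ 3 : ℤ) : ℚ) = ((-330 * (g ^ 2 * t) ^ 3 : ℤ) : ℚ) +
      0 * ((-91 * (g ^ 2 * t) ^ 2 : ℤ) : ℚ) + 0 ^ 2 * 0 + 0 ^ 3 - 0 * 0 - 0 ^ 2 - 0 * 0 * 0
    push_cast
    ring

theorem fin2_scale {g t : ℤ} (hg : g ≠ 0) (ht : t ≠ 0) : Fin2 (WS (g ^ 2 * t)) ↔ Fin2 (WS t) := by
  have hT : S_TRN := Pool.Agent.Z932.Z702.t_TRN
  obtain ⟨h1, h2, -⟩ := hT _ _ _ _ _ _ (vrT g t hg) (WS_Δ ht)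
  exact and_congr h1 h2

/-- the data of a pair -/
theorem pair {e d : ℤ} (he : Squarefree e) (hd : Squarefree d) : ∃ g : ℕ, 0 < g ∧
    e * d = (g : ℤ) ^ 2 * tw e d ∧ ∀ p : ℕ, p.Prime → p ∣ g → ¬ (p : ℤ) ∣ tw e d := by
  obtain ⟨g, e', d', hg, h1, h2, h3, h4, h5, h6, h7, h8⟩ := split he hd
  refine ⟨g, hg, ?_, fun p hp hpg hpt => ?_⟩
  · rw [tw_eq hg h1 h2 h3, h2, h3]
    ring
  · rw [tw_eq hg h1 h2 h3] at hpt
    have hpg' : (p : ℤ) ∣ (g : ℤ) := by exact_mod_cast hpg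
    have key : ∀ x : ℤ, Int.gcd (g : ℤ) x = 1 → ¬ (p : ℤ) ∣ x := by
      intro x hx hpx
      have h9 : (p : ℤ) ∣ (Int.gcd (g : ℤ) x : ℕ) := Int.dvd_coe_gcd hpg' hpx
      rw [hx] at h9
      have h10 : p ∣ 1 := by exact_mod_cast h9
      exact hp.one_lt.ne' (Nat.dvd_one.1 h10)
    rcases (Nat.prime_iff_prime_int.1 hp).dvd_or_dvd hpt with h | h
    · exact key e' h6 h
    · exact key d' h5 h

theorem fin2_tw {e d : ℤ} (he : Squarefree e) (hd : Squarefree d) :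
    Fin2 (WS (e * d)) ↔ (Rt17 (tw e d) ∧ G17 (tw e d)) := by
  obtain ⟨g, hg, h1, -⟩ := pair he hd
  rw [h1, fin2_scale (by exact_mod_cast hg.ne') (tw_sqf he hd).ne_zero,
    Fin17.fin2_all (tw_sqf he hd)]

theorem exists_L {e d : ℤ} (he : Squarefree e) (hd : Squarefree d) (h : Fin2 (WS (e * d))) :
    ∃ F : ℂ → ℂ, (Differentiable ℂ F ∧ ∀ s : ℂ, (3 : ℝ) / 2 < s.re →
      HasProd (fun p : ℕ => if p.Prime ∧ ¬ ((p : ℤ) ∣ 34 * (e * d)) then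
        (1 - ((p : ℂ) - (LTw.pts (e * d) p : ℂ)) * (p : ℂ) ^ (-s) + (p : ℂ) ^ (1 - 2 * s))⁻¹ else 1)
        (F s)) ∧ analyticOrderAt F 1 = 0 ∧ F 1 ≠ 0 := by
  have ht := tw_sqf he hd
  have h2 : Fin2 (WS (tw e d)) := (Fin17.fin2_all ht).2 ((fin2_tw he hd).1 h)
  obtain ⟨F, ⟨h3, h4⟩, -, h5⟩ := Fin17.exists_L (Fin17.bsd_all ht h2)
  obtain ⟨g, hg, h6, h7⟩ := pair he hd
  obtain ⟨F', k1, k2, k3⟩ := LTw.L_scale (t := tw e d) hg h7 h3 (fun s hs => h4 s hs) h5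
  refine ⟨F', ⟨k1, fun s hs => ?_⟩, ?_, k3⟩
  · rw [h6]
    exact k2 s hs
  · exact ((k1.analyticAt 1).analyticOrderAt_eq_zero).2 k3

end Pool.Agent.N855.GF.TwL
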